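import Pool.Agent.V11202.GM.Defs

set_option autoImplicit false

open scoped Manifold ContDiff Topology
open Module

namespace Pool.Agent.V11202.GM

/-- A compact Lie group `G` acting smoothly on a closed connected `n`-manifold `M`. The group is
modelled, without boundary, on the finite dimensional space `EG` by the model with corners `IG`,
and `M` is modelled on `ℝⁿ`. -/
structure GMan (n : ℕ) where
  /-- the model vector space of the group -/
  EG : Type
  [nEG : NormedAddCommGroup EG]
  [sEG : NormedSpace ℝ EG]
  [fEG : FiniteDimensional ℝ EG]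
  /-- the model space of the group -/
  HG : Type
  [tHG : TopologicalSpace HG]
  /-- the model with corners of the group -/
  IG : ModelWithCorners ℝ EG HG
  [bG : IG.Boundaryless]
  /-- the group -/
  G : Type
  [grp : Group G]
  [topG : TopologicalSpace G]
  [chG : ChartedSpace HG G]
  [lie : LieGroup IG ∞ G]
  compactG : CompactSpace G
  t2G : T2Space G
  /-- the manifold -/
  M : Type
  [topM : TopologicalSpace M]
  [chM : ChartedSpace (EuclideanSpace ℝ (Fin n)) M]
  [mfdM : IsManifold (𝓡 n) ∞ M]
  compactM : CompactSpace M
  t2M : T2Space M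
  connM : ConnectedSpace M
  [act : MulAction G M]
  smooth : ContMDiff (IG.prod (𝓡 n)) (𝓡 n) ∞ (fun p : G × M => p.1 • p.2)

attribute [instance] GMan.nEG GMan.sEG GMan.fEG GMan.tHG GMan.bG GMan.grp GMan.topG GMan.chG
  GMan.lie GMan.topM GMan.chM GMan.mfdM GMan.act

variable {n : ℕ} (X : GMan n)

/-- The smooth Riemannian metrics on `M`. -/
def GMan.Metric : Type :=
  Bundle.ContMDiffRiemannianMetric (𝓡 n) ∞ (EuclideanSpace ℝ (Fin n))
    (fun x : X.M => TangentSpace (𝓡 n) x)

/-- The action has only finitely many non-principal orbits. -/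
def GMan.FinitelyManyNonPrincipal : Prop := (nonPrincipalOrbits X.G X.M).Finite

/-- The set of the singular orbits of the action. -/
def GMan.singular : Set (Set X.M) := singularOrbits X.IG (𝓡 n) X.G X.M

/-- The cohomogeneity (codimension of the principal orbits) is `c`. -/
def GMan.HasCohomogeneity (c : ℕ) : Prop :=
  (∃ p : X.M, IsPrincipalPt X.G p) ∧
    ∀ p : X.M, IsPrincipalPt X.G p → orbitDim X.IG (𝓡 n) X.G p + c = n

/-- The Riemannian metric `g` is invariant under the group. -/
def GMan.Invariant (g : X.Metric) : Prop := IsInvariant (𝓡 n) X.G g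

/-- The Riemannian metric `g` has positive Ricci curvature. -/
def GMan.PositiveRicci (g : X.Metric) : Prop := PosRicci (𝓡 n) g

/-- The Riemannian metric `g` has sectional curvature at least `κ`. -/
def GMan.SecAtLeast (g : X.Metric) (κ : ℝ) : Prop := SecGe (𝓡 n) g κ

/-- The Riemannian metric `g` has diameter at most `r`. -/
def GMan.DiamAtMost (g : X.Metric) (r : ℝ) : Prop := DiamLe (𝓡 n) g r

end Pool.Agent.V11202.GM
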