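import Pool.Agent.V11202.GM.Metric

set_option autoImplicit false

open scoped Manifold ContDiff Topology RealInnerProductSpace Quaternion
open Module Metric

namespace Pool.Agent.V11202.GM

instance factH : Fact (finrank ℝ ℍ[ℝ] = 3 + 1) := ⟨Quaternion.finrank_eq_four⟩

/-- The group of unit quaternions. -/
abbrev Sp1 : Type := sphere (0 : ℍ[ℝ]) 1

theorem Sp1.norm_coe (g : Sp1) : ‖(g : ℍ[ℝ])‖ = 1 := by simp

theorem Sp1.coe_inv (g : Sp1) : ((g⁻¹ : Sp1) : ℍ[ℝ]) = star (g : ℍ[ℝ]) := by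
  have h : ((g⁻¹ : Sp1) : ℍ[ℝ]) = (g : ℍ[ℝ])⁻¹ := rfl
  rw [h, Quaternion.inv_def, Quaternion.normSq_eq_norm_mul_self, Sp1.norm_coe]
  simp

theorem Sp1.mul_star (g : Sp1) : (g : ℍ[ℝ]) * star (g : ℍ[ℝ]) = 1 := by
  rw [Quaternion.self_mul_star, Quaternion.normSq_eq_norm_mul_self, Sp1.norm_coe]
  simp

theorem Sp1.star_mul (g : Sp1) : star (g : ℍ[ℝ]) * (g : ℍ[ℝ]) = 1 := by
  rw [Quaternion.star_mul_self, Quaternion.normSq_eq_norm_mul_self, Sp1.norm_coe]
  simp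

/-- quaternionic conjugation as a continuous linear map -/
noncomputable def starC : ℍ[ℝ] →L[ℝ] ℍ[ℝ] :=
  LinearMap.toContinuousLinearMap
    { toFun := star
      map_add' := star_add
      map_smul' := fun r q => by ext <;> simp }

theorem starC_apply (q : ℍ[ℝ]) : starC q = star q := rfl

theorem contDiff_star_quat : ContDiff ℝ ∞ (star : ℍ[ℝ] → ℍ[ℝ]) := starC.contDiff

noncomputable instance : LieGroup (𝓡 3) ∞ Sp1 where
  contMDiff_mul := by
    apply ContMDiff.codRestrict_sphere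
    have h₂ : ContMDiff (𝓘(ℝ, ℍ[ℝ]).prod 𝓘(ℝ, ℍ[ℝ])) 𝓘(ℝ, ℍ[ℝ]) ∞
        fun z : ℍ[ℝ] × ℍ[ℝ] => z.fst * z.snd := by
      rw [contMDiff_iff]
      exact ⟨continuous_mul, fun x y => contDiff_mul.contDiffOn⟩
    let c : Sp1 → ℍ[ℝ] := (↑)
    suffices h₁ : ContMDiff _ _ _ (Prod.map c c) from h₂.comp h₁
    apply ContMDiff.prodMap <;> exact contMDiff_coe_sphere
  contMDiff_inv := by
    apply ContMDiff.codRestrict_sphere
    have e : (fun x : Sp1 => (((x⁻¹ : Sp1)) : ℍ[ℝ])) = fun x : Sp1 => star (x : ℍ[ℝ]) :=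
      funext Sp1.coe_inv
    have h1 : ContMDiff (𝓡 3) 𝓘(ℝ, ℍ[ℝ]) ∞ (fun x : Sp1 => star (x : ℍ[ℝ])) :=
      contDiff_star_quat.contMDiff.comp contMDiff_coe_sphere
    rw [← e] at h1
    exact h1

section lin

variable {EG : Type*} [NormedAddCommGroup EG] [NormedSpace ℝ EG]
  {HG : Type*} [TopologicalSpace HG] (IG : ModelWithCorners ℝ EG HG)
  (G : Type*) [Group G] [TopologicalSpace G] [ChartedSpace HG G]
  (A : Type*) [NormedAddCommGroup A] [NormedSpace ℝ A]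
  (V : Type*) [NormedAddCommGroup V] [InnerProductSpace ℝ V] (n : ℕ)
  [Fact (finrank ℝ V = n + 1)] [MulAction G (sphere (0 : V) 1)]

/-- data of a linear isometric action on a sphere -/
structure LinAct where
  ι : G → A
  hι : ContMDiff IG 𝓘(ℝ, A) ∞ ι
  Φ : A × V → V
  hΦ : ContDiff ℝ ∞ Φ
  lin : G → V →L[ℝ] V
  hlin : ∀ g v, Φ (ι g, v) = lin g v
  iso : ∀ g v w, ⟪lin g v, lin g w⟫ = ⟪v, w⟫
  smul : ∀ (g : G) (x : sphere (0 : V) 1), ((g • x : sphere (0 : V) 1) : V) = lin g x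

variable {IG G A V n} [IsManifold IG ∞ G]

theorem LinAct.contMDiff (L : LinAct IG G A V) :
    ContMDiff (IG.prod (𝓡 n)) (𝓡 n) ∞ (fun p : G × sphere (0 : V) 1 => p.1 • p.2) := by
  have h1 : ContMDiff (IG.prod (𝓡 n)) 𝓘(ℝ, V) ∞
      (fun p : G × sphere (0 : V) 1 => L.Φ (L.ι p.1, (p.2 : V))) := by
    have h2 : ContMDiff (IG.prod (𝓡 n)) 𝓘(ℝ, A × V) ∞
        (fun p : G × sphere (0 : V) 1 => (L.ι p.1, (p.2 : V))) :=
      (L.hι.comp contMDiff_fst).prodMk_space (contMDiff_coe_sphere.comp contMDiff_snd)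
    exact L.hΦ.contMDiff.comp h2
  have h3 : (fun p : G × sphere (0 : V) 1 => L.Φ (L.ι p.1, (p.2 : V))) =
      fun p : G × sphere (0 : V) 1 => ((p.1 • p.2 : sphere (0 : V) 1) : V) := by
    funext p
    rw [L.smul, L.hlin]
  rw [h3] at h1
  exact ContMDiff.codRestrict_sphere (m := ∞) h1 (fun p => (p.1 • p.2 : sphere (0 : V) 1).2)

omit [IsManifold IG ∞ G] in
theorem LinAct.contMDiff_smul (L : LinAct IG G A V) (g : G) :
    ContMDiff (𝓡 n) (𝓡 n) ∞ (fun x : sphere (0 : V) 1 => g • x) := by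
  have h1 : ContMDiff (𝓡 n) 𝓘(ℝ, V) ∞
      (fun x : sphere (0 : V) 1 => L.lin g (x : V)) :=
    (L.lin g).contMDiff.comp contMDiff_coe_sphere
  have h3 : (fun x : sphere (0 : V) 1 => L.lin g (x : V)) =
      fun x : sphere (0 : V) 1 => ((g • x : sphere (0 : V) 1) : V) := by
    funext p
    rw [L.smul]
  rw [h3] at h1
  exact ContMDiff.codRestrict_sphere (m := ∞) h1 (fun p => (g • p : sphere (0 : V) 1).2)

theorem LinAct.contMDiff_orbit (L : LinAct IG G A V) (x : sphere (0 : V) 1) :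
    ContMDiff IG (𝓡 n) ∞ (fun g : G => g • x) := by
  have h1 : ContMDiff IG 𝓘(ℝ, V) ∞ (fun g : G => L.Φ (L.ι g, (x : V))) := by
    have h2 : ContMDiff IG 𝓘(ℝ, A × V) ∞ (fun g : G => (L.ι g, (x : V))) :=
      L.hι.prodMk_space contMDiff_const
    exact L.hΦ.contMDiff.comp h2
  have h3 : (fun g : G => L.Φ (L.ι g, (x : V))) =
      fun g : G => ((g • x : sphere (0 : V) 1) : V) := by
    funext p
    rw [L.smul, L.hlin]
  rw [h3] at h1
  exact ContMDiff.codRestrict_sphere (m := ∞) h1 (fun g => (g • x : sphere (0 : V) 1).2)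

theorem LinAct.isInvariant (L : LinAct IG G A V) (c : ℝ) (hc : 0 < c) :
    IsInvariant (𝓡 n) G (roundMetric (V := V) (n := n) c hc) := by
  intro g x v w
  rw [roundMetric_apply, roundMetric_apply]
  have hs : MDifferentiableAt (𝓡 n) (𝓡 n) (fun x : sphere (0 : V) 1 => g • x) x :=
    (L.contMDiff_smul g).mdifferentiableAt (by simp)
  have key : ∀ v : EuclideanSpace ℝ (Fin n), dco (n := n) (g • x)
      ((mfderiv (𝓡 n) (𝓡 n) (fun y : sphere (0 : V) 1 => g • y) x :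
        EuclideanSpace ℝ (Fin n) →L[ℝ] EuclideanSpace ℝ (Fin n)) v) =
      L.lin g (dco (n := n) x v) := by
    intro v
    rw [← mfderiv_coe_comp hs v]
    have h3 : (fun q : sphere (0 : V) 1 => ((g • q : sphere (0 : V) 1) : V)) =
        fun q : sphere (0 : V) 1 => L.lin g (q : V) := funext fun q => L.smul g q
    rw [h3]
    have h4 : MDifferentiableAt (𝓡 n) 𝓘(ℝ, V) (fun x : sphere (0 : V) 1 => (x : V)) x :=
      (contMDiff_coe_sphere (m := ∞)).mdifferentiableAt (by simp)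
    have h5 : MDifferentiableAt 𝓘(ℝ, V) 𝓘(ℝ, V) (fun y : V => L.lin g y) (x : V) :=
      (L.lin g).mdifferentiableAt
    have h6 := mfderiv_comp x h5 h4
    have h7 : mfderiv 𝓘(ℝ, V) 𝓘(ℝ, V) (fun y : V => L.lin g y) (x : V) = L.lin g := by
      rw [mfderiv_eq_fderiv]
      exact (L.lin g).fderiv
    have h8 := congrArg (fun T : EuclideanSpace ℝ (Fin n) →L[ℝ] V => T v) h6
    refine h8.trans ?_
    have h9 : ∀ T : V →L[ℝ] V, T = L.lin g → T (dco (n := n) x v) = L.lin g (dco (n := n) x v) :=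
      fun T hT => by rw [hT]
    exact h9 _ h7
  have k1 := key v
  have k2 := key w
  have e : ∀ a b a' b' : V, a = a' → b = b' → ⟪a, b⟫ = ⟪a', b'⟫ := by
    rintro _ _ _ _ rfl rfl; rfl
  rw [e _ _ _ _ k1 k2, L.iso]

/-- differential of the embedding of the group at the identity -/
noncomputable def LinAct.dι (L : LinAct IG G A V) : EG →L[ℝ] A := mfderiv IG 𝓘(ℝ, A) L.ι 1

theorem LinAct.dco_orbit (L : LinAct IG G A V) (x : sphere (0 : V) 1) (v : EG) :
    dco (n := n) ((1 : G) • x)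
      ((mfderiv IG (𝓡 n) (fun g : G => g • x) 1 : EG →L[ℝ] EuclideanSpace ℝ (Fin n)) v) =
      fderiv ℝ (fun a => L.Φ (a, (x : V))) (L.ι 1) (L.dι v) := by
  have hs : MDifferentiableAt IG (𝓡 n) (fun g : G => g • x) 1 :=
    (L.contMDiff_orbit x).mdifferentiableAt (by simp)
  rw [← mfderiv_coe_comp hs v]
  have h3 : (fun g : G => ((g • x : sphere (0 : V) 1) : V)) =
      fun g : G => L.Φ (L.ι g, (x : V)) := funext fun g => by rw [L.smul, L.hlin]
  rw [h3]
  have h4 : MDifferentiableAt IG 𝓘(ℝ, A) L.ι 1 := L.hι.mdifferentiableAt (by simp)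
  have h5 : MDifferentiableAt 𝓘(ℝ, A) 𝓘(ℝ, V) (fun a : A => L.Φ (a, (x : V))) (L.ι 1) := by
    have h6 : ContDiff ℝ ∞ (fun a : A => L.Φ (a, (x : V))) :=
      L.hΦ.comp (contDiff_id.prodMk contDiff_const)
    exact (h6.differentiable (by simp) _).mdifferentiableAt
  have h6 := mfderiv_comp (1 : G) h5 h4
  have h8 := congrArg (fun T : EG →L[ℝ] V => T v) h6
  refine h8.trans ?_
  have h7 := mfderiv_eq_fderiv (𝕜 := ℝ) (f := fun a : A => L.Φ (a, (x : V))) (x := L.ι 1)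
  have h9 : ∀ T T' : A →L[ℝ] V, T = T' → T (L.dι v) = T' (L.dι v) :=
    fun T T' hT => by rw [hT]
  exact h9 _ _ h7

theorem LinAct.orbitDim_of_inj [FiniteDimensional ℝ EG] (L : LinAct IG G A V)
    (x : sphere (0 : V) 1)
    (h : ∀ v, fderiv ℝ (fun a => L.Φ (a, (x : V))) (L.ι 1) (L.dι v) = 0 → v = 0) :
    orbitDim IG (𝓡 n) G x = finrank ℝ EG := by
  unfold orbitDim
  apply LinearMap.finrank_range_of_inj
  rw [← LinearMap.ker_eq_bot, LinearMap.ker_eq_bot']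
  intro v hv
  apply h v
  rw [← L.dco_orbit (n := n) x v]
  have hv' : (mfderiv IG (𝓡 n) (fun g : G => g • x) 1 : EG →L[ℝ] EuclideanSpace ℝ (Fin n)) v = 0 :=
    hv
  rw [hv']
  exact map_zero (dco (n := n) ((1 : G) • x))

theorem LinAct.orbitDim_lt [FiniteDimensional ℝ EG] (L : LinAct IG G A V)
    (x : sphere (0 : V) 1) {v : EG} (hv : v ≠ 0)
    (h : fderiv ℝ (fun a => L.Φ (a, (x : V))) (L.ι 1) (L.dι v) = 0) :
    orbitDim IG (𝓡 n) G x < finrank ℝ EG := by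
  set D : EG →L[ℝ] EuclideanSpace ℝ (Fin n) := mfderiv IG (𝓡 n) (fun g : G => g • x) 1 with hD
  have h1 : D v = 0 := by
    apply dco_injective (n := n) ((1 : G) • x)
    exact ((L.dco_orbit x v).trans h).trans (map_zero (dco (n := n) ((1 : G) • x))).symm
  have h2 := LinearMap.finrank_range_add_finrank_ker (D : EG →ₗ[ℝ] EuclideanSpace ℝ (Fin n))
  have h3 : 0 < finrank ℝ (LinearMap.ker (D : EG →ₗ[ℝ] EuclideanSpace ℝ (Fin n))) := by
    apply Module.finrank_pos_iff_exists_ne_zero.2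
    exact ⟨⟨v, h1⟩, fun h => hv (congrArg Subtype.val h)⟩
  have h4 : orbitDim IG (𝓡 n) G x =
    finrank ℝ (LinearMap.range (D : EG →ₗ[ℝ] EuclideanSpace ℝ (Fin n))) := rfl
  omega

end lin

end Pool.Agent.V11202.GM
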