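import Pool.Agent.H839R2.Geo.Defs

set_option autoImplicit false

open scoped Manifold ContDiff Topology
open Module

namespace Pool.Agent.V11202.GM

open Pool.Agent.H839R2.Geo

section curv

variable {E : Type*} [NormedAddCommGroup E] [NormedSpace ℝ E]

/-- `Γ` is the Levi-Civita connection (Christoffel symbols `Γ y a b = ∇_a b`) of the metric
coefficients `g` near the point `y`, and it is differentiable at `y`. -/
def IsLeviCivita (g : E → E →L[ℝ] E →L[ℝ] ℝ) (Γ : E → E →L[ℝ] E →L[ℝ] E) (y : E) : Prop :=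
  DifferentiableAt ℝ Γ y ∧ ∀ᶠ y' in 𝓝 y, ∀ a b c, g y' (Γ y' a b) c = koszul g y' a b c

/-- The linear map `a ↦ T a b c`. -/
noncomputable def slotOne (T : E →L[ℝ] E →L[ℝ] E →L[ℝ] E) (b c : E) : E →L[ℝ] E :=
  (T.flip b).flip c

/-- The linear map `a ↦ T b a c`. -/
noncomputable def slotTwo (T : E →L[ℝ] E →L[ℝ] E →L[ℝ] E) (b c : E) : E →L[ℝ] E :=
  (T b).flip c

/-- The curvature endomorphism `a ↦ R(a, b) c = ∇_a ∇_b c - ∇_b ∇_a c` at the point `y` (for
constant vector fields `a`, `b`, `c`) of the connection with Christoffel symbols `Γ`, that is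
`(D_a Γ)(b, c) - (D_b Γ)(a, c) + Γ(a, Γ(b, c)) - Γ(b, Γ(a, c))`. -/
noncomputable def curvEnd (Γ : E → E →L[ℝ] E →L[ℝ] E) (y b c : E) : E →L[ℝ] E :=
  slotOne (fderiv ℝ Γ y) b c - slotTwo (fderiv ℝ Γ y) b c + (Γ y).flip (Γ y b c) -
    (Γ y b).comp ((Γ y).flip c)

/-- The Ricci curvature `Ric(b, b) = trace (a ↦ R(a, b) b)` of `g` at `y` is positive. -/
def RicPosAt (g : E → E →L[ℝ] E →L[ℝ] ℝ) (y : E) : Prop :=
  ∃ Γ : E → E →L[ℝ] E →L[ℝ] E, IsLeviCivita g Γ y ∧
    ∀ b, b ≠ 0 → 0 < LinearMap.trace ℝ E (curvEnd Γ y b b)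

/-- All sectional curvatures of `g` at `y` are at least `κ`:
`g(R(a, b) b, a) ≥ κ (|a|² |b|² - g(a, b)²)`. -/
def SecGeAt (g : E → E →L[ℝ] E →L[ℝ] ℝ) (κ : ℝ) (y : E) : Prop :=
  ∃ Γ : E → E →L[ℝ] E →L[ℝ] E, IsLeviCivita g Γ y ∧
    ∀ a b, κ * (g y a a * g y b b - g y a b ^ 2) ≤ g y (curvEnd Γ y b b a) a

end curv

section mfd

variable {E : Type*} [NormedAddCommGroup E] [NormedSpace ℝ E]
  {H : Type*} [TopologicalSpace H] (I : ModelWithCorners ℝ E H)
  {M : Type*} [TopologicalSpace M] [ChartedSpace H M] [IsManifold I ∞ M]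

/-- The Riemannian metric `g` has positive Ricci curvature at every point `x` (computed in the
chart at `x`). -/
def PosRicci (g : Bundle.ContMDiffRiemannianMetric I ∞ E (fun x : M => TangentSpace I x)) :
    Prop :=
  ∀ x : M, RicPosAt (coordMetric I g x) (extChartAt I x x)

/-- The sectional curvatures of the Riemannian metric `g` are at least `κ` at every point `x`
(computed in the chart at `x`). -/
def SecGe (g : Bundle.ContMDiffRiemannianMetric I ∞ E (fun x : M => TangentSpace I x)) (κ : ℝ) :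
    Prop :=
  ∀ x : M, SecGeAt (coordMetric I g x) κ (extChartAt I x x)

/-- The length of the curve `γ` over `[0, 1]` for the Riemannian metric `g`. -/
noncomputable def curveLen
    (g : Bundle.ContMDiffRiemannianMetric I ∞ E (fun x : M => TangentSpace I x)) (γ : ℝ → M) : ℝ :=
  ∫ t in (0 : ℝ)..1, √(g.inner (γ t) (mfderiv 𝓘(ℝ, ℝ) I γ t 1) (mfderiv 𝓘(ℝ, ℝ) I γ t 1))

/-- The diameter of the Riemannian manifold is at most `r`: any two points are joined by `C¹`
curves of length at most `r + δ`, for every `δ > 0`. -/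
def DiamLe (g : Bundle.ContMDiffRiemannianMetric I ∞ E (fun x : M => TangentSpace I x)) (r : ℝ) :
    Prop :=
  ∀ x y : M, ∀ δ > 0, ∃ γ : ℝ → M, ContMDiff 𝓘(ℝ, ℝ) I 1 γ ∧ γ 0 = x ∧ γ 1 = y ∧
    curveLen I g γ ≤ r + δ

end mfd

section action

variable {EG : Type*} [NormedAddCommGroup EG] [NormedSpace ℝ EG]
  {HG : Type*} [TopologicalSpace HG] (IG : ModelWithCorners ℝ EG HG)
  {E : Type*} [NormedAddCommGroup E] [NormedSpace ℝ E]
  {H : Type*} [TopologicalSpace H] (I : ModelWithCorners ℝ E H)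
  (G : Type*) [Group G] [TopologicalSpace G] [ChartedSpace HG G]
  {M : Type*} [TopologicalSpace M] [ChartedSpace H M] [MulAction G M]

/-- The dimension of the orbit of `x`: the rank, at the identity of `G`, of the orbit map
`g ↦ g • x`. -/
noncomputable def orbitDim (x : M) : ℕ :=
  let D : EG →L[ℝ] E := mfderiv IG I (fun g : G => g • x) 1
  finrank ℝ (LinearMap.range (D : EG →ₗ[ℝ] E))

omit [TopologicalSpace M] in
/-- The orbit of `x` is principal: the isotropy group of `x` is, up to conjugation, contained in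
the isotropy group of every point of `M`. -/
def IsPrincipalPt (x : M) : Prop :=
  ∀ y : M, ∃ h : G, ∀ s ∈ MulAction.stabilizer G x, h * s * h⁻¹ ∈ MulAction.stabilizer G y

/-- The orbit of `x` is singular: its dimension is smaller than that of a principal orbit. -/
def IsSingularPt (x : M) : Prop :=
  ∃ p : M, IsPrincipalPt G p ∧ orbitDim IG I G x < orbitDim IG I G p

/-- The set of the non-principal orbits. -/
def nonPrincipalOrbits (G M : Type*) [Group G] [MulAction G M] : Set (Set M) :=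
  {O | ∃ x : M, ¬ IsPrincipalPt G x ∧ O = MulAction.orbit G x}

/-- The set of the singular orbits. -/
def singularOrbits (M : Type*) [TopologicalSpace M] [ChartedSpace H M] [MulAction G M] :
    Set (Set M) :=
  {O | ∃ x : M, IsSingularPt IG I G x ∧ O = MulAction.orbit G x}

/-- The Riemannian metric `g` is `G`-invariant: every element of `G` acts by an isometry. -/
def IsInvariant [IsManifold I ∞ M]
    (g : Bundle.ContMDiffRiemannianMetric I ∞ E (fun x : M => TangentSpace I x)) : Prop :=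
  ∀ (a : G) (x : M) (v w : TangentSpace I x),
    g.inner (a • x) (mfderiv I I (fun y : M => a • y) x v) (mfderiv I I (fun y : M => a • y) x w) =
      g.inner x v w

end action

end Pool.Agent.V11202.GM
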