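import Pool.Agent.V11202.GM.Act

set_option autoImplicit false

open scoped Manifold ContDiff Topology RealInnerProductSpace Quaternion
open Module Metric

namespace Pool.Agent.V11202.GM

theorem re_conj (g q : ℍ[ℝ]) : (g * q * star g).re = Quaternion.normSq g * q.re := by
  rw [Quaternion.normSq_def']
  simp only [Quaternion.re_mul, Quaternion.imI_mul, Quaternion.imJ_mul, Quaternion.imK_mul,
    Quaternion.re_star, Quaternion.imI_star, Quaternion.imJ_star, Quaternion.imK_star]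
  ring

theorem re_conj_unit (g : Sp1) (q : ℍ[ℝ]) : ((g : ℍ[ℝ]) * q * star (g : ℍ[ℝ])).re = q.re := by
  rw [re_conj, Quaternion.normSq_eq_norm_mul_self, Sp1.norm_coe]
  ring

theorem inner_left_mul (g : Sp1) (a b : ℍ[ℝ]) : ⟪(g : ℍ[ℝ]) * a, (g : ℍ[ℝ]) * b⟫ = ⟪a, b⟫ := by
  rw [Quaternion.inner_def, Quaternion.inner_def, star_mul]
  have e : (g : ℍ[ℝ]) * a * (star b * star (g : ℍ[ℝ])) = (g : ℍ[ℝ]) * (a * star b) *
    star (g : ℍ[ℝ]) := by noncomm_ring
  rw [e, re_conj_unit]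

theorem inner_right_mul (g : Sp1) (a b : ℍ[ℝ]) :
    ⟪a * star (g : ℍ[ℝ]), b * star (g : ℍ[ℝ])⟫ = ⟪a, b⟫ := by
  rw [Quaternion.inner_def, Quaternion.inner_def, star_mul, star_star]
  have e : a * star (g : ℍ[ℝ]) * ((g : ℍ[ℝ]) * star b) = a * (star (g : ℍ[ℝ]) * (g : ℍ[ℝ])) *
    star b := by noncomm_ring
  rw [e, Sp1.star_mul, mul_one]

/-- `ℍ³` -/
abbrev W3 : Type := PiLp 2 (fun _ : Fin 3 => ℍ[ℝ])

/-- the functional `x ↦ Re x₂` -/
noncomputable def reF : W3 →ₗ[ℝ] ℝ where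
  toFun x := (x 2).re
  map_add' x y := by simp
  map_smul' r x := by simp

/-- `ℍ² ⊕ Im ℍ` -/
noncomputable abbrev V1 : Submodule ℝ W3 := LinearMap.ker reF

theorem mem_V1 (x : W3) : x ∈ V1 ↔ (x 2).re = 0 := Iff.rfl

theorem finrank_W3 : finrank ℝ W3 = 12 := by
  rw [(WithLp.linearEquiv 2 ℝ (Fin 3 → ℍ[ℝ])).finrank_eq, Module.finrank_pi_fintype]
  simp [Quaternion.finrank_eq_four]

theorem finrank_V1 : finrank ℝ V1 = 10 + 1 := by
  have h1 := LinearMap.finrank_range_add_finrank_ker reF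
  rw [finrank_W3] at h1
  have h2 : LinearMap.range reF = ⊤ := by
    rw [LinearMap.range_eq_top]
    intro r
    refine ⟨WithLp.toLp 2 (fun _ => (r : ℍ[ℝ])), ?_⟩
    show ((r : ℍ[ℝ])).re = r
    simp
  rw [h2, finrank_top, finrank_self] at h1
  have h3 : 1 + finrank ℝ V1 = 12 := h1
  omega

instance : Fact (finrank ℝ V1 = 10 + 1) := ⟨finrank_V1⟩

/-- the action map on `ℍ³` -/
noncomputable def act0 (a : ℍ[ℝ]) (x : W3) : W3 :=
  WithLp.toLp 2 ![a * x 0, a * x 1, a * x 2 * star a]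

@[simp] theorem act0_0 (a : ℍ[ℝ]) (x : W3) : act0 a x 0 = a * x 0 := rfl
@[simp] theorem act0_1 (a : ℍ[ℝ]) (x : W3) : act0 a x 1 = a * x 1 := rfl
@[simp] theorem act0_2 (a : ℍ[ℝ]) (x : W3) : act0 a x 2 = a * x 2 * star a := rfl

theorem act0_mem (a : ℍ[ℝ]) {x : W3} (hx : x ∈ V1) : act0 a x ∈ V1 := by
  rw [mem_V1] at hx ⊢
  rw [act0_2, re_conj, hx, mul_zero]

theorem w3_ext {x y : W3} (h0 : x 0 = y 0) (h1 : x 1 = y 1) (h2 : x 2 = y 2) : x = y := by
  apply PiLp.ext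
  intro i
  fin_cases i
  · exact h0
  · exact h1
  · exact h2

/-- the action as a linear map -/
noncomputable def lin1 (g : Sp1) : V1 →L[ℝ] V1 :=
  LinearMap.toContinuousLinearMap
    { toFun := fun x => ⟨act0 g x, act0_mem g x.2⟩
      map_add' := fun x y => by
        apply Subtype.ext
        apply w3_ext
        · exact mul_add _ _ _
        · exact mul_add _ _ _
        · show (g : ℍ[ℝ]) * ((x : W3) 2 + (y : W3) 2) * star (g : ℍ[ℝ]) =
            (g : ℍ[ℝ]) * (x : W3) 2 * star (g : ℍ[ℝ]) + (g : ℍ[ℝ]) * (y : W3) 2 * star (g : ℍ[ℝ])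
          rw [mul_add, add_mul]
      map_smul' := fun r x => by
        apply Subtype.ext
        apply w3_ext
        · show (g : ℍ[ℝ]) * (r • (x : W3) 0) = r • ((g : ℍ[ℝ]) * (x : W3) 0)
          rw [mul_smul_comm]
        · show (g : ℍ[ℝ]) * (r • (x : W3) 1) = r • ((g : ℍ[ℝ]) * (x : W3) 1)
          rw [mul_smul_comm]
        · show (g : ℍ[ℝ]) * (r • (x : W3) 2) * star (g : ℍ[ℝ]) =
            r • ((g : ℍ[ℝ]) * (x : W3) 2 * star (g : ℍ[ℝ]))
          rw [mul_smul_comm, smul_mul_assoc] }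

theorem lin1_coe (g : Sp1) (x : V1) : ((lin1 g x : V1) : W3) = act0 g x := rfl

theorem lin1_inner (g : Sp1) (v w : V1) : ⟪lin1 g v, lin1 g w⟫ = ⟪v, w⟫ := by
  rw [Submodule.coe_inner, Submodule.coe_inner, lin1_coe, lin1_coe, PiLp.inner_apply,
    PiLp.inner_apply, Fin.sum_univ_three, Fin.sum_univ_three, act0_0, act0_1, act0_2, act0_0,
    act0_1, act0_2, inner_left_mul, inner_left_mul, inner_right_mul, inner_left_mul]

theorem lin1_norm (g : Sp1) (v : V1) : ‖lin1 g v‖ = ‖v‖ := by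
  rw [@norm_eq_sqrt_real_inner, @norm_eq_sqrt_real_inner, lin1_inner]

/-- The sphere `S¹⁰` in `ℍ² ⊕ Im ℍ`. -/
abbrev M1 : Type := sphere (0 : V1) 1

noncomputable instance : MulAction Sp1 M1 where
  smul g x := ⟨lin1 g x, by rw [mem_sphere_zero_iff_norm, lin1_norm]; exact mem_sphere_zero_iff_norm.1 x.2⟩
  one_smul x := by
    apply Subtype.ext
    apply Subtype.ext
    apply w3_ext
    · exact one_mul _
    · exact one_mul _
    · show (1 : ℍ[ℝ]) * ((x : V1) : W3) 2 * star (1 : ℍ[ℝ]) = _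
      rw [one_mul, star_one, mul_one]
  mul_smul g h x := by
    apply Subtype.ext
    apply Subtype.ext
    apply w3_ext
    · exact mul_assoc _ _ _
    · exact mul_assoc _ _ _
    · show ((g : ℍ[ℝ]) * (h : ℍ[ℝ])) * ((x : V1) : W3) 2 * star ((g : ℍ[ℝ]) * (h : ℍ[ℝ])) =
        (g : ℍ[ℝ]) * ((h : ℍ[ℝ]) * ((x : V1) : W3) 2 * star (h : ℍ[ℝ])) * star (g : ℍ[ℝ])
      rw [star_mul]
      noncomm_ring

theorem smul_coe (g : Sp1) (x : M1) : ((g • x : M1) : V1) = lin1 g x := rfl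

theorem smul_coe' (g : Sp1) (x : M1) : (((g • x : M1) : V1) : W3) = act0 g ((x : V1) : W3) := rfl

theorem contDiff_act0 : ContDiff ℝ ∞ (fun p : ℍ[ℝ] × W3 => act0 p.1 p.2) := by
  rw [contDiff_piLp]
  have hx : ∀ i, ContDiff ℝ ∞ (fun p : ℍ[ℝ] × W3 => p.2 i) := fun i =>
    (PiLp.proj 2 (𝕜 := ℝ) (fun _ : Fin 3 => ℍ[ℝ]) i).contDiff.comp contDiff_snd
  intro i
  fin_cases i
  · exact contDiff_fst.mul (hx 0)
  · exact contDiff_fst.mul (hx 1)
  · exact (contDiff_fst.mul (hx 2)).mul (contDiff_star_quat.comp contDiff_fst)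

/-- the action map on `ℍ² ⊕ Im ℍ` -/
noncomputable def Phi1 (p : ℍ[ℝ] × V1) : V1 := ⟨act0 p.1 p.2, act0_mem p.1 p.2.2⟩

theorem contDiff_Phi1 : ContDiff ℝ ∞ Phi1 := by
  have h1 : ContDiff ℝ ∞ (fun p : ℍ[ℝ] × V1 => act0 p.1 (p.2 : W3)) :=
    contDiff_act0.comp (contDiff_fst.prodMk (V1.subtypeL.contDiff.comp contDiff_snd))
  have h2 : Phi1 = fun p : ℍ[ℝ] × V1 => V1.orthogonalProjectionOnto (act0 p.1 (p.2 : W3)) := by
    funext p
    exact (Submodule.orthogonalProjectionOnto_mem_subspace_eq_self (K := V1) (Phi1 p)).symm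
  rw [h2]
  exact (V1.orthogonalProjectionOnto).contDiff.comp h1

/-- the linear action data -/
noncomputable def L1 : LinAct (𝓡 3) Sp1 ℍ[ℝ] V1 where
  ι := fun g => (g : ℍ[ℝ])
  hι := contMDiff_coe_sphere
  Φ := Phi1
  hΦ := contDiff_Phi1
  lin := lin1
  hlin := fun g v => rfl
  iso := lin1_inner
  smul := fun g x => rfl

end Pool.Agent.V11202.GM
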