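import Pool.Agent.V11202.GM.Ex1

set_option autoImplicit false

open scoped Manifold ContDiff Topology RealInnerProductSpace Quaternion
open Module Metric

namespace Pool.Agent.V11202.GM

/-- coordinates of `ℍ² ⊕ Im ℍ` -/
noncomputable def prj (i : Fin 3) : V1 →L[ℝ] ℍ[ℝ] :=
  (PiLp.proj 2 (𝕜 := ℝ) (fun _ : Fin 3 => ℍ[ℝ]) i).comp V1.subtypeL

theorem prj_apply (i : Fin 3) (x : V1) : prj i x = (x : W3) i := rfl

theorem fderiv_prj (x : V1) (ξ : ℍ[ℝ]) (i : Fin 3) :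
    prj i (fderiv ℝ (fun a => Phi1 (a, x)) 1 ξ) =
      fderiv ℝ (fun a => (Phi1 (a, x) : W3) i) 1 ξ := by
  have h1 : ContDiff ℝ ∞ (fun a => Phi1 (a, x)) :=
    contDiff_Phi1.comp (contDiff_id.prodMk contDiff_const)
  have h2 : DifferentiableAt ℝ (fun a => Phi1 (a, x)) 1 := h1.differentiable (by simp) _
  have h3 := ((prj i).hasFDerivAt.comp (1 : ℍ[ℝ]) h2.hasFDerivAt).fderiv
  have h4 : (fun a => (Phi1 (a, x) : W3) i) = (prj i) ∘ (fun a => Phi1 (a, x)) := rfl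
  rw [h4, h3]
  rfl

theorem hasFDerivAt_mul_const' (c : ℍ[ℝ]) (a : ℍ[ℝ]) :
    HasFDerivAt (fun a : ℍ[ℝ] => a * c) ((ContinuousLinearMap.mul ℝ ℍ[ℝ]).flip c) a :=
  ((ContinuousLinearMap.mul ℝ ℍ[ℝ]).flip c).hasFDerivAt

theorem fderiv_prj0 (x : V1) (ξ : ℍ[ℝ]) :
    prj 0 (fderiv ℝ (fun a => Phi1 (a, x)) 1 ξ) = ξ * (x : W3) 0 := by
  rw [fderiv_prj]
  have h : (fun a => (Phi1 (a, x) : W3) 0) = fun a => a * (x : W3) 0 := rfl
  rw [h, (hasFDerivAt_mul_const' _ _).fderiv]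
  rfl

theorem fderiv_prj1 (x : V1) (ξ : ℍ[ℝ]) :
    prj 1 (fderiv ℝ (fun a => Phi1 (a, x)) 1 ξ) = ξ * (x : W3) 1 := by
  rw [fderiv_prj]
  have h : (fun a => (Phi1 (a, x) : W3) 1) = fun a => a * (x : W3) 1 := rfl
  rw [h, (hasFDerivAt_mul_const' _ _).fderiv]
  rfl

theorem fderiv_prj2 (x : V1) (ξ : ℍ[ℝ]) :
    prj 2 (fderiv ℝ (fun a => Phi1 (a, x)) 1 ξ) = ξ * (x : W3) 2 + (x : W3) 2 * star ξ := by
  rw [fderiv_prj]
  have h : (fun a => (Phi1 (a, x) : W3) 2) = fun a => ContinuousLinearMap.mul ℝ ℍ[ℝ]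
    (a * (x : W3) 2) (starC a) := rfl
  have h1 := (ContinuousLinearMap.mul ℝ ℍ[ℝ]).hasFDerivAt_of_bilinear
    (hasFDerivAt_mul_const' ((x : W3) 2) 1) (starC.hasFDerivAt (x := 1))
  rw [h, h1.fderiv]
  simp [starC_apply]
  abel

theorem v1_ext {x y : V1} (h0 : prj 0 x = prj 0 y) (h1 : prj 1 x = prj 1 y)
    (h2 : prj 2 x = prj 2 y) : x = y := Subtype.ext (w3_ext h0 h1 h2)

theorem re_eq_inner (q : ℍ[ℝ]) : ⟪q, (1 : ℍ[ℝ])⟫ = q.re := by
  rw [Quaternion.inner_def, star_one, mul_one]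

/-- the points with trivial isotropy -/
def Gen (x : M1) : Prop := ((x : V1) : W3) 0 ≠ 0 ∨ ((x : V1) : W3) 1 ≠ 0

theorem dim_gen {x : M1} (hx : Gen x) : orbitDim (𝓡 3) (𝓡 10) Sp1 x = 3 := by
  have h := L1.orbitDim_of_inj (n := 10) x (fun v hv => ?_)
  · rw [h]; exact finrank_euclideanSpace_fin
  · have hv' : fderiv ℝ (fun a => Phi1 (a, (x : V1))) 1 (L1.dι v) = 0 := hv
    have h0 := fderiv_prj0 (x : V1) (L1.dι v)
    have h1 := fderiv_prj1 (x : V1) (L1.dι v)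
    rw [hv', map_zero] at h0 h1
    have h3 : L1.dι v = 0 := by
      rcases hx with hx | hx
      · exact (mul_eq_zero.1 h0.symm).resolve_right hx
      · exact (mul_eq_zero.1 h1.symm).resolve_right hx
    exact dco_injective (V := ℍ[ℝ]) (n := 3) (1 : Sp1) (h3.trans (map_zero _).symm)

theorem stab_gen {x : M1} (hx : Gen x) {g : Sp1} (hg : g • x = x) : g = 1 := by
  have h0 : (g : ℍ[ℝ]) * ((x : V1) : W3) 0 = ((x : V1) : W3) 0 :=
    congrArg (fun y : M1 => ((y : V1) : W3) 0) hg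
  have h1 : (g : ℍ[ℝ]) * ((x : V1) : W3) 1 = ((x : V1) : W3) 1 :=
    congrArg (fun y : M1 => ((y : V1) : W3) 1) hg
  apply Subtype.ext
  show (g : ℍ[ℝ]) = 1
  rcases hx with hx | hx
  · exact mul_right_cancel₀ hx (by rw [h0, one_mul])
  · exact mul_right_cancel₀ hx (by rw [h1, one_mul])

theorem principal_gen {x : M1} (hx : Gen x) : IsPrincipalPt Sp1 x := by
  intro y
  refine ⟨1, fun s hs => ?_⟩
  have : s = 1 := stab_gen hx hs
  rw [this]
  simp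

/-- a point with trivial isotropy -/
noncomputable def p1 : M1 := ⟨⟨WithLp.toLp 2 ![1, 0, 0], by rw [mem_V1]; rfl⟩, by
  rw [mem_sphere_zero_iff_norm]
  show ‖(WithLp.toLp 2 ![1, 0, 0] : W3)‖ = 1
  rw [PiLp.norm_eq_of_L2, Fin.sum_univ_three]
  simp⟩

theorem p1_gen : Gen p1 := Or.inl one_ne_zero

theorem not_gen {x : M1} (hx : ¬ Gen x) : ((x : V1) : W3) 0 = 0 ∧ ((x : V1) : W3) 1 = 0 ∧
    (((x : V1) : W3) 2).re = 0 ∧ ‖((x : V1) : W3) 2‖ = 1 := by
  unfold Gen at hx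
  push Not at hx
  refine ⟨hx.1, hx.2, (x : V1).2, ?_⟩
  have h1 : ‖((x : V1) : W3)‖ = 1 := mem_sphere_zero_iff_norm.1 x.2
  rw [PiLp.norm_eq_of_L2, Fin.sum_univ_three, hx.1, hx.2] at h1
  simpa using h1

theorem star_im {q : ℍ[ℝ]} (hq : q.re = 0) : star q = -q := by
  ext <;> simp [hq]

theorem sq_im {q : ℍ[ℝ]} (hq : q.re = 0) (hn : ‖q‖ = 1) : q * q = -1 := by
  have h1 : q * star q = 1 := by
    rw [Quaternion.self_mul_star, Quaternion.normSq_eq_norm_mul_self, hn]; simp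
  rw [star_im hq, mul_neg] at h1
  rw [← h1, neg_neg]

theorem dim_lt {x : M1} (hx : ¬ Gen x) : orbitDim (𝓡 3) (𝓡 10) Sp1 x < 3 := by
  obtain ⟨h0, h1, h2, h3⟩ := not_gen hx
  obtain ⟨v, hv⟩ : ∃ v, L1.dι v = ((x : V1) : W3) 2 := by
    have h4 : ((x : V1) : W3) 2 ∈ (ℝ ∙ ((1 : Sp1) : ℍ[ℝ]))ᗮ := by
      rw [Submodule.mem_orthogonal_singleton_iff_inner_left]
      exact (re_eq_inner _).trans h2
    have h5 := range_mvfderiv_subtypeVal (E := ℍ[ℝ]) (n := 3) (1 : Sp1)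
    rw [← h5] at h4
    obtain ⟨v, hv⟩ := h4
    exact ⟨v, hv⟩
  have hv0 : v ≠ 0 := by
    rintro rfl
    rw [map_zero] at hv
    rw [← hv, norm_zero] at h3
    norm_num at h3
  have h6 := L1.orbitDim_lt (n := 10) x hv0 ?_
  · rwa [finrank_euclideanSpace_fin] at h6
  · show fderiv ℝ (fun a => Phi1 (a, (x : V1))) 1 (L1.dι v) = 0
    rw [hv]
    apply v1_ext
    · rw [fderiv_prj0, h0, mul_zero, map_zero]
    · rw [fderiv_prj1, h1, mul_zero, map_zero]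
    · rw [fderiv_prj2, star_im h2, map_zero]
      noncomm_ring

theorem not_principal {x : M1} (hx : ¬ Gen x) : ¬ IsPrincipalPt Sp1 x := by
  intro hp
  obtain ⟨h0, h1, h2, h3⟩ := not_gen hx
  let s : Sp1 := ⟨((x : V1) : W3) 2, by simpa using h3⟩
  have hs : s ∈ MulAction.stabilizer Sp1 x := by
    rw [MulAction.mem_stabilizer_iff]
    apply Subtype.ext
    apply Subtype.ext
    apply w3_ext
    · show ((x : V1) : W3) 2 * ((x : V1) : W3) 0 = _
      rw [h0, mul_zero]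
    · show ((x : V1) : W3) 2 * ((x : V1) : W3) 1 = _
      rw [h1, mul_zero]
    · show ((x : V1) : W3) 2 * ((x : V1) : W3) 2 * star (((x : V1) : W3) 2) = _
      rw [mul_assoc, Sp1.mul_star s, mul_one]
  obtain ⟨h, hh⟩ := hp p1
  have h4 := stab_gen p1_gen (hh s hs)
  have h5 : s = 1 := by
    have := congrArg (fun t => h⁻¹ * t * h) h4
    simpa [mul_assoc] using this
  have h6 : ((x : V1) : W3) 2 = 1 := congrArg Subtype.val h5
  rw [h6] at h2
  norm_num at h2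

theorem exists_conj_aux {u v : ℍ[ℝ]} (hu : u.re = 0) (hun : ‖u‖ = 1) (hv : v.re = 0)
    (hvn : ‖v‖ = 1) (hne : v ≠ -u) : ∃ g : Sp1, (g : ℍ[ℝ]) * u * star (g : ℍ[ℝ]) = v := by
  set a : ℍ[ℝ] := 1 - v * u with ha
  have hu2 := sq_im hu hun
  have hv2 := sq_im hv hvn
  have ha0 : a ≠ 0 := by
    intro h
    apply hne
    have h1 : v * u = 1 := (sub_eq_zero.1 h).symm
    have h2 : v * u * u = u := by rw [h1, one_mul]
    rw [mul_assoc, hu2] at h2
    rw [← h2]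
    simp
  have h1 : v * a = a * u := by
    rw [ha, mul_sub, sub_mul, ← mul_assoc, hv2, mul_assoc v u u, hu2]
    simp only [mul_one, one_mul, neg_mul, mul_neg]
    abel
  have hn : ‖‖a‖⁻¹ • a‖ = 1 := by
    rw [norm_smul, norm_inv, norm_norm, inv_mul_cancel₀ (norm_ne_zero_iff.2 ha0)]
  refine ⟨⟨‖a‖⁻¹ • a, by simpa using hn⟩, ?_⟩
  have h2 : (‖a‖⁻¹ • a) * star (‖a‖⁻¹ • a) = 1 := Sp1.mul_star ⟨‖a‖⁻¹ • a, by simpa using hn⟩
  show (‖a‖⁻¹ • a) * u * star (‖a‖⁻¹ • a) = v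
  rw [smul_mul_assoc, ← h1, ← mul_smul_comm, mul_assoc, h2, mul_one]

/-- the quaternion `i` -/
noncomputable def qi : ℍ[ℝ] := ⟨0, 1, 0, 0⟩
/-- the quaternion `j` -/
noncomputable def qj : ℍ[ℝ] := ⟨0, 0, 1, 0⟩

theorem norm_qi : ‖qi‖ = 1 := by
  rw [← sq_eq_sq₀ (norm_nonneg _) zero_le_one, sq, ← Quaternion.normSq_eq_norm_mul_self,
    Quaternion.normSq_def', qi]
  norm_num

theorem norm_qj : ‖qj‖ = 1 := by
  rw [← sq_eq_sq₀ (norm_nonneg _) zero_le_one, sq, ← Quaternion.normSq_eq_norm_mul_self,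
    Quaternion.normSq_def', qj]
  norm_num

theorem exists_conj {u v : ℍ[ℝ]} (hu : u.re = 0) (hun : ‖u‖ = 1) (hv : v.re = 0)
    (hvn : ‖v‖ = 1) : ∃ g : Sp1, (g : ℍ[ℝ]) * u * star (g : ℍ[ℝ]) = v := by
  by_cases hne : v = -u
  · obtain ⟨w, hw, hwn, h1, h2⟩ : ∃ w : ℍ[ℝ], w.re = 0 ∧ ‖w‖ = 1 ∧ w ≠ u ∧ w ≠ -u := by
      by_cases hi' : u.imI = 0
      · refine ⟨qi, rfl, norm_qi, ?_, ?_⟩
        · rintro rfl
          norm_num [qi] at hi'
        · intro h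
          have h3 := congrArg (fun q : ℍ[ℝ] => q.imI) h
          simp [hi', qi] at h3
      · by_cases hj' : u.imJ = 0
        · refine ⟨qj, rfl, norm_qj, ?_, ?_⟩
          · rintro rfl
            norm_num [qj] at hj'
          · intro h
            have h3 := congrArg (fun q : ℍ[ℝ] => q.imJ) h
            simp [hj', qj] at h3
        · refine ⟨qi, rfl, norm_qi, ?_, ?_⟩
          · rintro rfl
            exact hj' rfl
          · intro h
            have h3 := congrArg (fun q : ℍ[ℝ] => q.imJ) h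
            simp [qi] at h3
            exact hj' h3
    obtain ⟨g, hg⟩ := exists_conj_aux hu hun hw hwn h2
    have h3 : v ≠ -w := by
      rw [hne]
      intro h
      exact h1 (neg_injective h).symm
    obtain ⟨g', hg'⟩ := exists_conj_aux hw hwn hv hvn h3
    refine ⟨g' * g, ?_⟩
    have e : ((g' * g : Sp1) : ℍ[ℝ]) = (g' : ℍ[ℝ]) * (g : ℍ[ℝ]) := rfl
    rw [e, star_mul, ← hg', ← hg]
    noncomm_ring
  · exact exists_conj_aux hu hun hv hvn hne

/-- the singular orbit -/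
def O1 : Set M1 := {x | ¬ Gen x}

theorem orbit_eq {x : M1} (hx : ¬ Gen x) : MulAction.orbit Sp1 x = O1 := by
  obtain ⟨h0, h1, h2, h3⟩ := not_gen hx
  ext y
  constructor
  · rintro ⟨g, rfl⟩
    show ¬ Gen (g • x)
    unfold Gen
    push Not
    constructor
    · show (g : ℍ[ℝ]) * ((x : V1) : W3) 0 = 0
      rw [h0, mul_zero]
    · show (g : ℍ[ℝ]) * ((x : V1) : W3) 1 = 0
      rw [h1, mul_zero]
  · intro hy
    obtain ⟨k0, k1, k2, k3⟩ := not_gen hy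
    obtain ⟨g, hg⟩ := exists_conj h2 h3 k2 k3
    refine ⟨g, ?_⟩
    apply Subtype.ext
    apply Subtype.ext
    apply w3_ext
    · show (g : ℍ[ℝ]) * ((x : V1) : W3) 0 = _
      rw [h0, mul_zero, k0]
    · show (g : ℍ[ℝ]) * ((x : V1) : W3) 1 = _
      rw [h1, mul_zero, k1]
    · exact hg

/-- a point of the singular orbit -/
noncomputable def q1 : M1 := ⟨⟨WithLp.toLp 2 ![0, 0, qi], by rw [mem_V1]; rfl⟩, by
  rw [mem_sphere_zero_iff_norm]
  show ‖(WithLp.toLp 2 ![0, 0, qi] : W3)‖ = 1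
  rw [PiLp.norm_eq_of_L2, Fin.sum_univ_three]
  simp [norm_qi]⟩

theorem q1_not_gen : ¬ Gen q1 := by
  unfold Gen
  push Not
  exact ⟨rfl, rfl⟩

theorem nonPrincipal_eq : nonPrincipalOrbits Sp1 M1 = {O1} := by
  ext O
  constructor
  · rintro ⟨x, hx, rfl⟩
    have : ¬ Gen x := fun h => hx (principal_gen h)
    exact orbit_eq this
  · rintro rfl
    exact ⟨q1, not_principal q1_not_gen, (orbit_eq q1_not_gen).symm⟩

theorem singular_iff (x : M1) : IsSingularPt (𝓡 3) (𝓡 10) Sp1 x ↔ ¬ Gen x := by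
  constructor
  · rintro ⟨p, hp, hlt⟩ hx
    have hpg : Gen p := by
      by_contra h
      exact not_principal h hp
    rw [dim_gen hx, dim_gen hpg] at hlt
    exact lt_irrefl _ hlt
  · intro hx
    refine ⟨p1, principal_gen p1_gen, ?_⟩
    rw [dim_gen p1_gen]
    exact dim_lt hx

theorem singular_eq : singularOrbits (𝓡 3) (𝓡 10) Sp1 M1 = {O1} := by
  ext O
  constructor
  · rintro ⟨x, hx, rfl⟩
    exact orbit_eq ((singular_iff x).1 hx)
  · rintro rfl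
    exact ⟨q1, (singular_iff q1).2 q1_not_gen, (orbit_eq q1_not_gen).symm⟩

theorem connected_M1 : ConnectedSpace M1 := by
  rw [← isConnected_iff_connectedSpace]
  refine isConnected_sphere ?_ 0 zero_le_one
  rw [← finrank_eq_rank, finrank_V1]
  norm_num

end Pool.Agent.V11202.GM
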