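import Pool.Agent.V11202.GM.Ex1b
import Pool.Agent.V11202.GM.Bundled

set_option autoImplicit false

open scoped Manifold ContDiff Topology RealInnerProductSpace Quaternion
open Module Metric

namespace Pool.Agent.V11202.GM

instance factC : Fact (finrank ℝ ℂ = 1 + 1) := ⟨Complex.finrank_real_complex⟩

/-- The circle group of unit complex numbers. -/
abbrev S1 : Type := sphere (0 : ℂ) 1

theorem S1.norm_coe (g : S1) : ‖(g : ℂ)‖ = 1 := by simp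

theorem S1.coe_inv (g : S1) : ((g⁻¹ : S1) : ℂ) = star (g : ℂ) := by
  have h : ((g⁻¹ : S1) : ℂ) = (g : ℂ)⁻¹ := rfl
  rw [h, Complex.inv_def, Complex.normSq_eq_norm_sq, S1.norm_coe]
  simp

noncomputable instance : LieGroup (𝓡 1) ∞ S1 where
  contMDiff_mul := by
    apply ContMDiff.codRestrict_sphere
    have h₂ : ContMDiff (𝓘(ℝ, ℂ).prod 𝓘(ℝ, ℂ)) 𝓘(ℝ, ℂ) ∞
        fun z : ℂ × ℂ => z.fst * z.snd := by
      rw [contMDiff_iff]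
      exact ⟨continuous_mul, fun x y => contDiff_mul.contDiffOn⟩
    let c : S1 → ℂ := (↑)
    suffices h₁ : ContMDiff _ _ _ (Prod.map c c) from h₂.comp h₁
    apply ContMDiff.prodMap <;> exact contMDiff_coe_sphere
  contMDiff_inv := by
    apply ContMDiff.codRestrict_sphere
    have e : (fun x : S1 => (((x⁻¹ : S1)) : ℂ)) = fun x : S1 => star (x : ℂ) :=
      funext S1.coe_inv
    have h1 : ContMDiff (𝓡 1) 𝓘(ℝ, ℂ) ∞ (fun x : S1 => star (x : ℂ)) :=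
      Complex.conjCLE.contDiff.contMDiff.comp contMDiff_coe_sphere
    rw [← e] at h1
    exact h1

/-- the embedding of the complex numbers in the quaternions -/
noncomputable def emC : ℂ →L[ℝ] ℍ[ℝ] :=
  LinearMap.toContinuousLinearMap (Quaternion.ofComplex : ℂ →ₐ[ℝ] ℍ[ℝ]).toLinearMap

theorem emC_apply (z : ℂ) : emC z = (z : ℍ[ℝ]) := rfl

theorem norm_emC (z : ℂ) : ‖emC z‖ = ‖z‖ := by
  rw [← sq_eq_sq₀ (norm_nonneg _) (norm_nonneg _), sq, sq, ← Quaternion.normSq_eq_norm_mul_self,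
    Quaternion.normSq_def', ← sq ‖z‖, ← Complex.normSq_eq_norm_sq, Complex.normSq_apply, emC_apply]
  simp
  ring

theorem emC_mul (z w : ℂ) : emC (z * w) = emC z * emC w :=
  map_mul (Quaternion.ofComplex : ℂ →ₐ[ℝ] ℍ[ℝ]) z w

theorem emC_one : emC 1 = 1 := map_one (Quaternion.ofComplex : ℂ →ₐ[ℝ] ℍ[ℝ])

theorem emC_inj : Function.Injective emC := by
  intro z w h
  have h1 : ‖emC (z - w)‖ = 0 := by rw [map_sub, h, sub_self, norm_zero]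
  rw [norm_emC] at h1
  exact sub_eq_zero.1 (norm_eq_zero.1 h1)

/-- a unit complex number as a unit quaternion -/
noncomputable def emS (z : S1) : Sp1 := ⟨emC z, by
  rw [mem_sphere_zero_iff_norm, norm_emC]; exact S1.norm_coe z⟩

theorem emS_coe (z : S1) : ((emS z : Sp1) : ℍ[ℝ]) = emC z := rfl

/-- `ℍ²` -/
abbrev W2 : Type := PiLp 2 (fun _ : Fin 2 => ℍ[ℝ])

theorem finrank_W2 : finrank ℝ W2 = 7 + 1 := by
  rw [(WithLp.linearEquiv 2 ℝ (Fin 2 → ℍ[ℝ])).finrank_eq, Module.finrank_pi_fintype]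
  simp [Quaternion.finrank_eq_four]

instance : Fact (finrank ℝ W2 = 7 + 1) := ⟨finrank_W2⟩

/-- the action map on `ℍ²` -/
noncomputable def act2 (p : ℍ[ℝ] × ℂ) (x : W2) : W2 :=
  WithLp.toLp 2 ![x 0 * star p.1, emC p.2 * x 1 * star p.1]

@[simp] theorem act2_0 (p : ℍ[ℝ] × ℂ) (x : W2) : act2 p x 0 = x 0 * star p.1 := rfl
@[simp] theorem act2_1 (p : ℍ[ℝ] × ℂ) (x : W2) : act2 p x 1 = emC p.2 * x 1 * star p.1 := rfl

theorem w2_ext {x y : W2} (h0 : x 0 = y 0) (h1 : x 1 = y 1) : x = y := by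
  apply PiLp.ext
  intro i
  fin_cases i
  · exact h0
  · exact h1

/-- the group `Sp(1) × S¹` -/
abbrev G2 : Type := Sp1 × S1

/-- the action as a linear map -/
noncomputable def lin2 (g : G2) : W2 →L[ℝ] W2 :=
  LinearMap.toContinuousLinearMap
    { toFun := fun x => act2 ((g.1 : ℍ[ℝ]), (g.2 : ℂ)) x
      map_add' := fun x y => by
        apply w2_ext
        · show (x 0 + y 0) * star (g.1 : ℍ[ℝ]) = x 0 * star (g.1 : ℍ[ℝ]) + y 0 * star (g.1 : ℍ[ℝ])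
          rw [add_mul]
        · show emC (g.2 : ℂ) * (x 1 + y 1) * star (g.1 : ℍ[ℝ]) =
            emC (g.2 : ℂ) * x 1 * star (g.1 : ℍ[ℝ]) + emC (g.2 : ℂ) * y 1 * star (g.1 : ℍ[ℝ])
          rw [mul_add, add_mul]
      map_smul' := fun r x => by
        apply w2_ext
        · show (r • x 0) * star (g.1 : ℍ[ℝ]) = r • (x 0 * star (g.1 : ℍ[ℝ]))
          rw [smul_mul_assoc]
        · show emC (g.2 : ℂ) * (r • x 1) * star (g.1 : ℍ[ℝ]) =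
            r • (emC (g.2 : ℂ) * x 1 * star (g.1 : ℍ[ℝ]))
          rw [mul_smul_comm, smul_mul_assoc] }

theorem lin2_coe (g : G2) (x : W2) : lin2 g x = act2 ((g.1 : ℍ[ℝ]), (g.2 : ℂ)) x := rfl

theorem lin2_inner (g : G2) (v w : W2) : ⟪lin2 g v, lin2 g w⟫ = ⟪v, w⟫ := by
  rw [lin2_coe, lin2_coe, PiLp.inner_apply, PiLp.inner_apply, Fin.sum_univ_two, Fin.sum_univ_two,
    act2_0, act2_0, act2_1, act2_1, inner_right_mul, inner_right_mul]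
  congr 1
  exact inner_left_mul (emS g.2) (v 1) (w 1)

theorem lin2_norm (g : G2) (v : W2) : ‖lin2 g v‖ = ‖v‖ := by
  rw [@norm_eq_sqrt_real_inner, @norm_eq_sqrt_real_inner, lin2_inner]

/-- The sphere `S⁷` in `ℍ²`. -/
abbrev M2 : Type := sphere (0 : W2) 1

noncomputable instance : MulAction G2 M2 where
  smul g x := ⟨lin2 g x, by
    rw [mem_sphere_zero_iff_norm, lin2_norm]; exact mem_sphere_zero_iff_norm.1 x.2⟩
  one_smul x := by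
    apply Subtype.ext
    apply w2_ext
    · show (x : W2) 0 * star (1 : ℍ[ℝ]) = (x : W2) 0
      rw [star_one, mul_one]
    · show emC 1 * (x : W2) 1 * star (1 : ℍ[ℝ]) = (x : W2) 1
      rw [emC_one, one_mul, star_one, mul_one]
  mul_smul g h x := by
    apply Subtype.ext
    apply w2_ext
    · show (x : W2) 0 * star ((g.1 : ℍ[ℝ]) * (h.1 : ℍ[ℝ])) =
        ((x : W2) 0 * star (h.1 : ℍ[ℝ])) * star (g.1 : ℍ[ℝ])
      rw [star_mul, mul_assoc]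
    · show emC ((g.2 : ℂ) * (h.2 : ℂ)) * (x : W2) 1 * star ((g.1 : ℍ[ℝ]) * (h.1 : ℍ[ℝ])) =
        emC (g.2 : ℂ) * (emC (h.2 : ℂ) * (x : W2) 1 * star (h.1 : ℍ[ℝ])) * star (g.1 : ℍ[ℝ])
      rw [star_mul, emC_mul]
      noncomm_ring

theorem contDiff_act2 : ContDiff ℝ ∞ (fun p : (ℍ[ℝ] × ℂ) × W2 => act2 p.1 p.2) := by
  rw [contDiff_piLp]
  have hx : ∀ i, ContDiff ℝ ∞ (fun p : (ℍ[ℝ] × ℂ) × W2 => p.2 i) := fun i =>
    (PiLp.proj 2 (𝕜 := ℝ) (fun _ : Fin 2 => ℍ[ℝ]) i).contDiff.comp contDiff_snd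
  have ha : ContDiff ℝ ∞ (fun p : (ℍ[ℝ] × ℂ) × W2 => star p.1.1) :=
    contDiff_star_quat.comp (contDiff_fst.comp contDiff_fst)
  have hz : ContDiff ℝ ∞ (fun p : (ℍ[ℝ] × ℂ) × W2 => emC p.1.2) :=
    emC.contDiff.comp (contDiff_snd.comp contDiff_fst)
  intro i
  fin_cases i
  · exact (hx 0).mul ha
  · exact (hz.mul (hx 1)).mul ha

/-- the embedding of the group -/
noncomputable def io2 (g : G2) : ℍ[ℝ] × ℂ := ((g.1 : ℍ[ℝ]), (g.2 : ℂ))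

theorem contMDiff_io2 : ContMDiff ((𝓡 3).prod (𝓡 1)) 𝓘(ℝ, ℍ[ℝ] × ℂ) ∞ io2 :=
  ((contMDiff_coe_sphere (m := ∞) (E := ℍ[ℝ]) (n := 3)).comp contMDiff_fst).prodMk_space
    ((contMDiff_coe_sphere (m := ∞) (E := ℂ) (n := 1)).comp contMDiff_snd)

/-- the linear action data -/
noncomputable def L2 : LinAct ((𝓡 3).prod (𝓡 1)) G2 (ℍ[ℝ] × ℂ) W2 where
  ι := io2
  hι := contMDiff_io2
  Φ := fun p => act2 p.1 p.2
  hΦ := contDiff_act2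
  lin := lin2
  hlin := fun _ _ => rfl
  iso := lin2_inner
  smul := fun _ _ => rfl

theorem dio2 (v : EuclideanSpace ℝ (Fin 3) × EuclideanSpace ℝ (Fin 1)) :
    L2.dι v = (dco (V := ℍ[ℝ]) (n := 3) (1 : Sp1) v.1, dco (V := ℂ) (n := 1) (1 : S1) v.2) := by
  have hd : MDifferentiableAt ((𝓡 3).prod (𝓡 1)) 𝓘(ℝ, ℍ[ℝ] × ℂ) io2 (1 : G2) :=
    contMDiff_io2.mdifferentiableAt (by simp)
  have h1 : MDifferentiableAt (𝓡 3) 𝓘(ℝ, ℍ[ℝ]) (fun x : Sp1 => (x : ℍ[ℝ])) (1 : G2).1 :=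
    (contMDiff_coe_sphere (m := ∞)).mdifferentiableAt (by simp)
  have h2 : MDifferentiableAt (𝓡 1) 𝓘(ℝ, ℂ) (fun x : S1 => (x : ℂ)) (1 : G2).2 :=
    (contMDiff_coe_sphere (m := ∞)).mdifferentiableAt (by simp)
  apply Prod.ext
  · have a1 := mfderiv_comp (1 : G2) (g := fun q : ℍ[ℝ] × ℂ => q.1) (I' := 𝓘(ℝ, ℍ[ℝ] × ℂ))
      (I'' := 𝓘(ℝ, ℍ[ℝ])) (ContinuousLinearMap.fst ℝ ℍ[ℝ] ℂ).mdifferentiableAt hd
    have a2 := mfderiv_comp (1 : G2) (f := (Prod.fst : G2 → Sp1))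
      (g := fun x : Sp1 => (x : ℍ[ℝ]))
      (I := (𝓡 3).prod (𝓡 1)) (I' := 𝓡 3) (I'' := 𝓘(ℝ, ℍ[ℝ])) h1 mdifferentiableAt_fst
    have a3 : ((fun q : ℍ[ℝ] × ℂ => q.1) ∘ io2) =
      (fun x : Sp1 => (x : ℍ[ℝ])) ∘ (Prod.fst : G2 → Sp1) := rfl
    rw [a3] at a1
    have a4 := congrArg (fun L : (EuclideanSpace ℝ (Fin 3) × EuclideanSpace ℝ (Fin 1)) →L[ℝ]
      ℍ[ℝ] => L v) (a2.symm.trans a1)
    rw [mfderiv_fst] at a4
    have a5 : mfderiv 𝓘(ℝ, ℍ[ℝ] × ℂ) 𝓘(ℝ, ℍ[ℝ]) (fun q : ℍ[ℝ] × ℂ => q.1) (io2 1) =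
        ContinuousLinearMap.fst ℝ ℍ[ℝ] ℂ := by
      rw [mfderiv_eq_fderiv]
      exact (ContinuousLinearMap.fst ℝ ℍ[ℝ] ℂ).fderiv
    have h9 : ∀ T : (ℍ[ℝ] × ℂ) →L[ℝ] ℍ[ℝ], T = ContinuousLinearMap.fst ℝ ℍ[ℝ] ℂ →
        T (L2.dι v) = (L2.dι v).1 := fun T hT => by rw [hT]; rfl
    exact ((h9 _ a5).symm.trans a4.symm)
  · have a1 := mfderiv_comp (1 : G2) (g := fun q : ℍ[ℝ] × ℂ => q.2) (I' := 𝓘(ℝ, ℍ[ℝ] × ℂ))
      (I'' := 𝓘(ℝ, ℂ)) (ContinuousLinearMap.snd ℝ ℍ[ℝ] ℂ).mdifferentiableAt hd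
    have a2 := mfderiv_comp (1 : G2) (f := (Prod.snd : G2 → S1))
      (g := fun x : S1 => (x : ℂ))
      (I := (𝓡 3).prod (𝓡 1)) (I' := 𝓡 1) (I'' := 𝓘(ℝ, ℂ)) h2 mdifferentiableAt_snd
    have a3 : ((fun q : ℍ[ℝ] × ℂ => q.2) ∘ io2) =
      (fun x : S1 => (x : ℂ)) ∘ (Prod.snd : G2 → S1) := rfl
    rw [a3] at a1
    have a4 := congrArg (fun L : (EuclideanSpace ℝ (Fin 3) × EuclideanSpace ℝ (Fin 1)) →L[ℝ]
      ℂ => L v) (a2.symm.trans a1)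
    rw [mfderiv_snd] at a4
    have a5 : mfderiv 𝓘(ℝ, ℍ[ℝ] × ℂ) 𝓘(ℝ, ℂ) (fun q : ℍ[ℝ] × ℂ => q.2) (io2 1) =
        ContinuousLinearMap.snd ℝ ℍ[ℝ] ℂ := by
      rw [mfderiv_eq_fderiv]
      exact (ContinuousLinearMap.snd ℝ ℍ[ℝ] ℂ).fderiv
    have h9 : ∀ T : (ℍ[ℝ] × ℂ) →L[ℝ] ℂ, T = ContinuousLinearMap.snd ℝ ℍ[ℝ] ℂ →
        T (L2.dι v) = (L2.dι v).2 := fun T hT => by rw [hT]; rfl
    exact ((h9 _ a5).symm.trans a4.symm)

end Pool.Agent.V11202.GM
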