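import Pool.Agent.V11202.GM.Ex2

set_option autoImplicit false

open scoped Manifold ContDiff Topology RealInnerProductSpace Quaternion
open Module Metric

namespace Pool.Agent.V11202.GM

/-- coordinates of `ℍ²` -/
noncomputable def prk (i : Fin 2) : W2 →L[ℝ] ℍ[ℝ] :=
  PiLp.proj 2 (𝕜 := ℝ) (fun _ : Fin 2 => ℍ[ℝ]) i

theorem fderiv_prk (x : W2) (ξ : ℍ[ℝ] × ℂ) (i : Fin 2) :
    prk i (fderiv ℝ (fun a => act2 a x) (1, 1) ξ) =
      fderiv ℝ (fun a => act2 a x i) (1, 1) ξ := by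
  have h1 : ContDiff ℝ ∞ (fun a => act2 a x) :=
    contDiff_act2.comp (contDiff_id.prodMk contDiff_const)
  have h2 : DifferentiableAt ℝ (fun a => act2 a x) (1, 1) := h1.differentiable (by simp) _
  have h3 := ((prk i).hasFDerivAt.comp ((1, 1) : ℍ[ℝ] × ℂ) h2.hasFDerivAt).fderiv
  have h4 : (fun a => act2 a x i) = (prk i) ∘ (fun a => act2 a x) := rfl
  rw [h4, h3]
  rfl

theorem fderiv_prk0 (x : W2) (ξ : ℍ[ℝ] × ℂ) :
    prk 0 (fderiv ℝ (fun a => act2 a x) (1, 1) ξ) = x 0 * star ξ.1 := by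
  rw [fderiv_prk]
  have h : (fun a : ℍ[ℝ] × ℂ => act2 a x 0) = fun a => ((ContinuousLinearMap.mul ℝ ℍ[ℝ] (x 0)).comp
    (starC.comp (ContinuousLinearMap.fst ℝ ℍ[ℝ] ℂ))) a := rfl
  rw [h, ContinuousLinearMap.fderiv]
  rfl

theorem fderiv_prk1 (x : W2) (ξ : ℍ[ℝ] × ℂ) :
    prk 1 (fderiv ℝ (fun a => act2 a x) (1, 1) ξ) = emC ξ.2 * x 1 + x 1 * star ξ.1 := by
  rw [fderiv_prk]
  have h : (fun a : ℍ[ℝ] × ℂ => act2 a x 1) = fun a => ContinuousLinearMap.mul ℝ ℍ[ℝ]
    ((((ContinuousLinearMap.mul ℝ ℍ[ℝ]).flip (x 1)).comp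
      (emC.comp (ContinuousLinearMap.snd ℝ ℍ[ℝ] ℂ))) a)
    ((starC.comp (ContinuousLinearMap.fst ℝ ℍ[ℝ] ℂ)) a) := rfl
  have h1 := (ContinuousLinearMap.mul ℝ ℍ[ℝ]).hasFDerivAt_of_bilinear
    ((((ContinuousLinearMap.mul ℝ ℍ[ℝ]).flip (x 1)).comp
      (emC.comp (ContinuousLinearMap.snd ℝ ℍ[ℝ] ℂ))).hasFDerivAt (x := ((1, 1) : ℍ[ℝ] × ℂ)))
    ((starC.comp (ContinuousLinearMap.fst ℝ ℍ[ℝ] ℂ)).hasFDerivAt (x := ((1, 1) : ℍ[ℝ] × ℂ)))
  rw [h, h1.fderiv]
  simp [starC_apply, emC_one]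
  abel

theorem w2_ext' {x y : W2} (h0 : prk 0 x = prk 0 y) (h1 : prk 1 x = prk 1 y) : x = y :=
  w2_ext h0 h1

/-- the points with trivial isotropy -/
def Gen2 (x : M2) : Prop := (x : W2) 0 ≠ 0 ∧ (x : W2) 1 ≠ 0

theorem dim_gen2 {x : M2} (hx : Gen2 x) : orbitDim ((𝓡 3).prod (𝓡 1)) (𝓡 7) G2 x = 4 := by
  have h := L2.orbitDim_of_inj (n := 7) x (fun v hv => ?_)
  · rw [h, Module.finrank_prod, finrank_euclideanSpace_fin, finrank_euclideanSpace_fin]
  · have hv' : fderiv ℝ (fun a => act2 a (x : W2)) (1, 1) (L2.dι v) = 0 := hv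
    have h0 := fderiv_prk0 (x : W2) (L2.dι v)
    have h1 := fderiv_prk1 (x : W2) (L2.dι v)
    rw [hv', map_zero] at h0 h1
    have h2 : star (L2.dι v).1 = 0 := (mul_eq_zero.1 h0.symm).resolve_left hx.1
    have h3 : (L2.dι v).1 = 0 := star_eq_zero.1 h2
    rw [h2, mul_zero, add_zero] at h1
    have h4 : emC (L2.dι v).2 = 0 := (mul_eq_zero.1 h1.symm).resolve_right hx.2
    have h5 : (L2.dι v).2 = 0 := emC_inj (h4.trans (map_zero emC).symm)
    rw [dio2] at h3 h5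
    apply Prod.ext
    · exact dco_injective (V := ℍ[ℝ]) (n := 3) (1 : Sp1) (h3.trans (map_zero _).symm)
    · exact dco_injective (V := ℂ) (n := 1) (1 : S1) (h5.trans (map_zero _).symm)

theorem stab_gen2 {x : M2} (hx : Gen2 x) {g : G2} (hg : g • x = x) : g = 1 := by
  have h0 : (x : W2) 0 * star (g.1 : ℍ[ℝ]) = (x : W2) 0 :=
    congrArg (fun y : M2 => (y : W2) 0) hg
  have h1 : emC (g.2 : ℂ) * (x : W2) 1 * star (g.1 : ℍ[ℝ]) = (x : W2) 1 :=
    congrArg (fun y : M2 => (y : W2) 1) hg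
  have h2 : star (g.1 : ℍ[ℝ]) = 1 := mul_left_cancel₀ hx.1 (by rw [h0, mul_one])
  rw [h2, mul_one] at h1
  have h3 : emC (g.2 : ℂ) = 1 := mul_right_cancel₀ hx.2 (by rw [h1, one_mul])
  apply Prod.ext
  · apply Subtype.ext
    show (g.1 : ℍ[ℝ]) = 1
    rw [← star_star (g.1 : ℍ[ℝ]), h2, star_one]
  · apply Subtype.ext
    exact emC_inj (h3.trans emC_one.symm)

theorem principal_gen2 {x : M2} (hx : Gen2 x) : IsPrincipalPt G2 x := by
  intro y
  refine ⟨1, fun s hs => ?_⟩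
  have : s = 1 := stab_gen2 hx hs
  rw [this]
  simp

/-- a point with trivial isotropy -/
noncomputable def p2 : M2 := ⟨WithLp.toLp 2 ![(3 / 5 : ℝ), (4 / 5 : ℝ)], by
  rw [mem_sphere_zero_iff_norm, PiLp.norm_eq_of_L2, Fin.sum_univ_two]
  have h1 : ‖(((3 / 5 : ℝ) : ℝ) : ℍ[ℝ])‖ = 3 / 5 := by
    rw [Quaternion.norm_coe]; norm_num
  have h2 : ‖(((4 / 5 : ℝ) : ℝ) : ℍ[ℝ])‖ = 4 / 5 := by
    rw [Quaternion.norm_coe]; norm_num
  show √(‖(((3 / 5 : ℝ) : ℝ) : ℍ[ℝ])‖ ^ 2 + ‖(((4 / 5 : ℝ) : ℝ) : ℍ[ℝ])‖ ^ 2) = 1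
  rw [h1, h2]
  norm_num⟩

theorem p2_gen : Gen2 p2 := by
  constructor
  · show (((3 / 5 : ℝ) : ℝ) : ℍ[ℝ]) ≠ 0
    intro h
    have := congrArg (fun q : ℍ[ℝ] => ‖q‖) h
    simp only [Quaternion.norm_coe, norm_zero] at this
    norm_num at this
  · show (((4 / 5 : ℝ) : ℝ) : ℍ[ℝ]) ≠ 0
    intro h
    have := congrArg (fun q : ℍ[ℝ] => ‖q‖) h
    simp only [Quaternion.norm_coe, norm_zero] at this
    norm_num at this

theorem norm_split (x : M2) : ‖(x : W2) 0‖ ^ 2 + ‖(x : W2) 1‖ ^ 2 = 1 := by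
  have h1 : ‖(x : W2)‖ = 1 := mem_sphere_zero_iff_norm.1 x.2
  rw [PiLp.norm_eq_of_L2, Fin.sum_univ_two, Real.sqrt_eq_one] at h1
  exact h1

theorem norm_one_of_zero {x : M2} (h : (x : W2) 1 = 0) : ‖(x : W2) 0‖ = 1 := by
  have h1 := norm_split x
  rw [h, norm_zero] at h1
  have h2 := norm_nonneg ((x : W2) 0)
  nlinarith

theorem norm_one_of_zero' {x : M2} (h : (x : W2) 0 = 0) : ‖(x : W2) 1‖ = 1 := by
  have h1 := norm_split x
  rw [h, norm_zero] at h1
  have h2 := norm_nonneg ((x : W2) 1)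
  nlinarith

/-- tangent vectors of the circle group -/
theorem exists_tan : ∃ w : EuclideanSpace ℝ (Fin 1), w ≠ 0 ∧
    dco (V := ℂ) (n := 1) (1 : S1) w = Complex.I := by
  have h4 : Complex.I ∈ (ℝ ∙ ((1 : S1) : ℂ))ᗮ := by
    rw [Submodule.mem_orthogonal_singleton_iff_inner_left]
    show ⟪Complex.I, (1 : ℂ)⟫ = 0
    simp [Complex.inner]
  have h5 := range_mvfderiv_subtypeVal (E := ℂ) (n := 1) (1 : S1)
  rw [← h5] at h4
  obtain ⟨v, hv⟩ := h4
  have hv' : dco (V := ℂ) (n := 1) (1 : S1) v = Complex.I := hv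
  refine ⟨v, ?_, hv'⟩
  rintro rfl
  rw [map_zero] at hv'
  exact Complex.I_ne_zero hv'.symm

theorem exists_tan3 {q : ℍ[ℝ]} (hq : q.re = 0) : ∃ w : EuclideanSpace ℝ (Fin 3),
    dco (V := ℍ[ℝ]) (n := 3) (1 : Sp1) w = q := by
  have h4 : q ∈ (ℝ ∙ ((1 : Sp1) : ℍ[ℝ]))ᗮ := by
    rw [Submodule.mem_orthogonal_singleton_iff_inner_left]
    exact (re_eq_inner _).trans hq
  have h5 := range_mvfderiv_subtypeVal (E := ℍ[ℝ]) (n := 3) (1 : Sp1)
  rw [← h5] at h4
  obtain ⟨v, hv⟩ := h4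
  exact ⟨v, hv⟩

theorem re_conj' (g q : ℍ[ℝ]) : (star g * q * g).re = Quaternion.normSq g * q.re := by
  have := re_conj (star g) q
  rw [star_star] at this
  rw [this]
  simp [Quaternion.normSq_star]

theorem emC_I_re : (emC Complex.I).re = 0 := by
  rw [emC_apply]
  simp

theorem dim_lt2 {x : M2} (hx : ¬ Gen2 x) : orbitDim ((𝓡 3).prod (𝓡 1)) (𝓡 7) G2 x < 4 := by
  obtain ⟨w, hw0, hw⟩ := exists_tan
  have hfin : finrank ℝ (EuclideanSpace ℝ (Fin 3) × EuclideanSpace ℝ (Fin 1)) = 4 := by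
    rw [Module.finrank_prod, finrank_euclideanSpace_fin, finrank_euclideanSpace_fin]
  by_cases h0 : (x : W2) 0 = 0
  · have hn := norm_one_of_zero' h0
    set y := (x : W2) 1 with hy
    have hre : (star y * emC Complex.I * y).re = 0 := by
      rw [re_conj', emC_I_re, mul_zero]
    obtain ⟨w', hw'⟩ := exists_tan3 hre
    have hyy : y * star y = 1 := Sp1.mul_star ⟨y, by simpa using hn⟩
    have hyy' : star y * y = 1 := Sp1.star_mul ⟨y, by simpa using hn⟩
    have h6 := L2.orbitDim_lt (n := 7) x (v := (w', w)) (fun h => hw0 (congrArg Prod.snd h)) ?_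
    · rwa [hfin] at h6
    · show fderiv ℝ (fun a => act2 a (x : W2)) (1, 1) (L2.dι (w', w)) = 0
      rw [dio2]
      simp only
      rw [hw, hw']
      apply w2_ext'
      · rw [fderiv_prk0, h0, zero_mul, map_zero]
      · rw [fderiv_prk1, map_zero, ← hy, star_im hre]
        have e : y * -(star y * emC Complex.I * y) = -((y * star y) * emC Complex.I * y) := by
          noncomm_ring
        rw [e, hyy, one_mul, add_neg_cancel]
  · have h1 : (x : W2) 1 = 0 := by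
      by_contra h1
      exact hx ⟨h0, h1⟩
    have h6 := L2.orbitDim_lt (n := 7) x (v := (0, w)) (fun h => hw0 (congrArg Prod.snd h)) ?_
    · rwa [hfin] at h6
    · show fderiv ℝ (fun a => act2 a (x : W2)) (1, 1) (L2.dι (0, w)) = 0
      rw [dio2]
      simp only
      rw [map_zero]
      apply w2_ext'
      · rw [fderiv_prk0]
        simp
      · rw [fderiv_prk1, h1]
        simp

/-- the two singular orbits -/
def OA : Set M2 := {x | (x : W2) 1 = 0}
/-- the two singular orbits -/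
def OB : Set M2 := {x | (x : W2) 0 = 0}

theorem orbitA {x : M2} (hx : (x : W2) 1 = 0) : MulAction.orbit G2 x = OA := by
  ext y
  constructor
  · rintro ⟨g, rfl⟩
    show emC (g.2 : ℂ) * (x : W2) 1 * star (g.1 : ℍ[ℝ]) = 0
    rw [hx, mul_zero, zero_mul]
  · intro hy
    have hy' : (y : W2) 1 = 0 := hy
    have nx := norm_one_of_zero hx
    have ny := norm_one_of_zero hy'
    refine ⟨((⟨star ((y : W2) 0) * (x : W2) 0, by simp [norm_mul, nx, ny]⟩ : Sp1), 1), ?_⟩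
    apply Subtype.ext
    apply w2_ext
    · show (x : W2) 0 * star (star ((y : W2) 0) * (x : W2) 0) = (y : W2) 0
      have hxx : (x : W2) 0 * star ((x : W2) 0) = 1 :=
        Sp1.mul_star ⟨(x : W2) 0, by simpa using nx⟩
      rw [star_mul, star_star, ← mul_assoc, hxx, one_mul]
    · show emC 1 * (x : W2) 1 * star (star ((y : W2) 0) * (x : W2) 0) = (y : W2) 1
      rw [hx, hy', mul_zero, zero_mul]

theorem orbitB {x : M2} (hx : (x : W2) 0 = 0) : MulAction.orbit G2 x = OB := by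
  ext y
  constructor
  · rintro ⟨g, rfl⟩
    show (x : W2) 0 * star (g.1 : ℍ[ℝ]) = 0
    rw [hx, zero_mul]
  · intro hy
    have hy' : (y : W2) 0 = 0 := hy
    have nx := norm_one_of_zero' hx
    have ny := norm_one_of_zero' hy'
    refine ⟨((⟨star ((y : W2) 1) * (x : W2) 1, by simp [norm_mul, nx, ny]⟩ : Sp1), 1), ?_⟩
    apply Subtype.ext
    apply w2_ext
    · show (x : W2) 0 * star (star ((y : W2) 1) * (x : W2) 1) = (y : W2) 0
      rw [hx, hy', zero_mul]
    · show emC 1 * (x : W2) 1 * star (star ((y : W2) 1) * (x : W2) 1) = (y : W2) 1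
      have hxx : (x : W2) 1 * star ((x : W2) 1) = 1 :=
        Sp1.mul_star ⟨(x : W2) 1, by simpa using nx⟩
      rw [emC_one, one_mul, star_mul, star_star, ← mul_assoc, hxx, one_mul]

/-- a point of the first singular orbit -/
noncomputable def qA : M2 := ⟨WithLp.toLp 2 ![1, 0], by
  rw [mem_sphere_zero_iff_norm, PiLp.norm_eq_of_L2, Fin.sum_univ_two]
  simp⟩

/-- a point of the second singular orbit -/
noncomputable def qB : M2 := ⟨WithLp.toLp 2 ![0, 1], by
  rw [mem_sphere_zero_iff_norm, PiLp.norm_eq_of_L2, Fin.sum_univ_two]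
  simp⟩

/-- the element `-1` of the circle group -/
noncomputable def mI : S1 := ⟨Complex.I, by simp⟩

theorem mI_ne : mI ≠ 1 := by
  intro h
  have h1 : Complex.I = 1 := congrArg Subtype.val h
  have := congrArg Complex.re h1
  simp at this

theorem stabA (g : G2) {x : M2} (hx : (x : W2) 1 = 0) :
    g ∈ MulAction.stabilizer G2 x ↔ g.1 = 1 := by
  rw [MulAction.mem_stabilizer_iff]
  constructor
  · intro hg
    have h0 : (x : W2) 0 * star (g.1 : ℍ[ℝ]) = (x : W2) 0 :=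
      congrArg (fun y : M2 => (y : W2) 0) hg
    have hx0 : (x : W2) 0 ≠ 0 := by
      intro h
      have := norm_one_of_zero hx
      rw [h, norm_zero] at this
      norm_num at this
    have h2 : star (g.1 : ℍ[ℝ]) = 1 := mul_left_cancel₀ hx0 (by rw [h0, mul_one])
    apply Subtype.ext
    show (g.1 : ℍ[ℝ]) = 1
    rw [← star_star (g.1 : ℍ[ℝ]), h2, star_one]
  · intro hg
    apply Subtype.ext
    apply w2_ext
    · show (x : W2) 0 * star (g.1 : ℍ[ℝ]) = (x : W2) 0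
      rw [hg]
      show (x : W2) 0 * star (1 : ℍ[ℝ]) = (x : W2) 0
      rw [star_one, mul_one]
    · show emC (g.2 : ℂ) * (x : W2) 1 * star (g.1 : ℍ[ℝ]) = (x : W2) 1
      rw [hx, mul_zero, zero_mul]

/-- elements of the isotropy groups over the second singular orbit -/
theorem stabB_mem (z : S1) {x : M2} (hx : (x : W2) 0 = 0) : ∃ g : Sp1,
    (g : ℍ[ℝ]) = star ((x : W2) 1) * emC z * (x : W2) 1 ∧
      ((g, z) : G2) ∈ MulAction.stabilizer G2 x := by
  have nx := norm_one_of_zero' hx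
  have hxx : (x : W2) 1 * star ((x : W2) 1) = 1 :=
    Sp1.mul_star ⟨(x : W2) 1, by simpa using nx⟩
  have hzz : emC (z : ℂ) * star (emC (z : ℂ)) = 1 := Sp1.mul_star (emS z)
  refine ⟨⟨star ((x : W2) 1) * emC z * (x : W2) 1, by simp [norm_mul, nx, norm_emC]⟩, rfl, ?_⟩
  rw [MulAction.mem_stabilizer_iff]
  apply Subtype.ext
  apply w2_ext
  · show (x : W2) 0 * star (star ((x : W2) 1) * emC z * (x : W2) 1) = (x : W2) 0
    rw [hx, zero_mul]
  · show emC (z : ℂ) * (x : W2) 1 * star (star ((x : W2) 1) * emC z * (x : W2) 1) = (x : W2) 1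
    rw [star_mul, star_mul, star_star]
    have e : emC (z : ℂ) * (x : W2) 1 * (star ((x : W2) 1) * (star (emC (z : ℂ)) * (x : W2) 1)) =
        emC (z : ℂ) * ((x : W2) 1 * star ((x : W2) 1)) * star (emC (z : ℂ)) * (x : W2) 1 := by
      noncomm_ring
    rw [e, hxx, mul_one, hzz, one_mul]

theorem exists_stab {x : M2} (hx : ¬ Gen2 x) : ∃ s ∈ MulAction.stabilizer G2 x, s ≠ 1 := by
  by_cases h0 : (x : W2) 0 = 0
  · obtain ⟨g, -, hg⟩ := stabB_mem mI h0
    exact ⟨(g, mI), hg, fun h => mI_ne (congrArg Prod.snd h)⟩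
  · have h1 : (x : W2) 1 = 0 := by
      by_contra h1
      exact hx ⟨h0, h1⟩
    exact ⟨(1, mI), (stabA _ h1).2 rfl, fun h => mI_ne (congrArg Prod.snd h)⟩

theorem not_principal2 {x : M2} (hx : ¬ Gen2 x) : ¬ IsPrincipalPt G2 x := by
  intro hp
  obtain ⟨s, hs, hs1⟩ := exists_stab hx
  obtain ⟨h, hh⟩ := hp p2
  have h4 := stab_gen2 p2_gen (hh s hs)
  apply hs1
  have := congrArg (fun t => h⁻¹ * t * h) h4
  simpa [mul_assoc] using this

theorem singular_iff2 (x : M2) : IsSingularPt ((𝓡 3).prod (𝓡 1)) (𝓡 7) G2 x ↔ ¬ Gen2 x := by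
  constructor
  · rintro ⟨p, hp, hlt⟩ hx
    have hpg : Gen2 p := by
      by_contra h
      exact not_principal2 h hp
    rw [dim_gen2 hx, dim_gen2 hpg] at hlt
    exact lt_irrefl _ hlt
  · intro hx
    refine ⟨p2, principal_gen2 p2_gen, ?_⟩
    rw [dim_gen2 p2_gen]
    exact dim_lt2 hx

theorem orbit_cases {x : M2} (hx : ¬ Gen2 x) : MulAction.orbit G2 x = OA ∨
    MulAction.orbit G2 x = OB := by
  by_cases h0 : (x : W2) 0 = 0
  · exact Or.inr (orbitB h0)
  · left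
    apply orbitA
    by_contra h1
    exact hx ⟨h0, h1⟩

theorem qA_not : ¬ Gen2 qA := fun h => h.2 rfl
theorem qB_not : ¬ Gen2 qB := fun h => h.1 rfl

theorem nonPrincipal_eq2 : nonPrincipalOrbits G2 M2 = {OA, OB} := by
  ext O
  constructor
  · rintro ⟨x, hx, rfl⟩
    have : ¬ Gen2 x := fun h => hx (principal_gen2 h)
    exact orbit_cases this
  · rintro (rfl | rfl)
    · exact ⟨qA, not_principal2 qA_not, (orbitA rfl).symm⟩
    · exact ⟨qB, not_principal2 qB_not, (orbitB rfl).symm⟩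

theorem singular_eq2 : singularOrbits ((𝓡 3).prod (𝓡 1)) (𝓡 7) G2 M2 = {OA, OB} := by
  ext O
  constructor
  · rintro ⟨x, hx, rfl⟩
    exact orbit_cases ((singular_iff2 x).1 hx)
  · rintro (rfl | rfl)
    · exact ⟨qA, (singular_iff2 qA).2 qA_not, (orbitA rfl).symm⟩
    · exact ⟨qB, (singular_iff2 qB).2 qB_not, (orbitB rfl).symm⟩

theorem qi_ne_comm : qi * qj ≠ qj * qi := by
  intro h
  have := congrArg (fun q : ℍ[ℝ] => q.imK) h
  norm_num [qi, qj] at this

/-- no automorphism of the group maps the isotropy group of `qA` to that of `qB` -/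
theorem not_aut (φ : G2 ≃* G2) : (MulAction.stabilizer G2 qA).map φ.toMonoidHom ≠
    MulAction.stabilizer G2 qB := by
  intro h
  have hcen : ∀ s ∈ MulAction.stabilizer G2 qB, ∀ t : G2, s * t = t * s := by
    intro s hs t
    rw [← h] at hs
    obtain ⟨r, hr, rfl⟩ := hs
    have hr1 : r.1 = 1 := (stabA r rfl).1 hr
    have hc : r * φ.symm t = φ.symm t * r := by
      apply Prod.ext
      · show r.1 * (φ.symm t).1 = (φ.symm t).1 * r.1
        rw [hr1, one_mul, mul_one]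
      · apply Subtype.ext
        show (r.2 : ℂ) * ((φ.symm t).2 : ℂ) = ((φ.symm t).2 : ℂ) * (r.2 : ℂ)
        ring
    have := congrArg φ hc
    simpa using this
  obtain ⟨g, hg, hgs⟩ := stabB_mem mI (x := qB) rfl
  have hgq : (g : ℍ[ℝ]) = qi := by
    rw [hg]
    show star (1 : ℍ[ℝ]) * emC Complex.I * 1 = qi
    rw [star_one, one_mul, mul_one, emC_apply]
    ext <;> simp [qi]
  let j : Sp1 := ⟨qj, by simpa using norm_qj⟩
  have h2 := hcen (g, mI) hgs (j, 1)
  have h3 : (g : ℍ[ℝ]) * qj = qj * (g : ℍ[ℝ]) :=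
    congrArg (fun t : G2 => (t.1 : ℍ[ℝ])) h2
  rw [hgq] at h3
  exact qi_ne_comm h3

theorem connected_M2 : ConnectedSpace M2 := by
  rw [← isConnected_iff_connectedSpace]
  refine isConnected_sphere ?_ 0 zero_le_one
  rw [← finrank_eq_rank, finrank_W2]
  norm_num

instance connected_Sp1 : ConnectedSpace Sp1 := by
  rw [← isConnected_iff_connectedSpace]
  refine isConnected_sphere ?_ 0 zero_le_one
  rw [← finrank_eq_rank, Quaternion.finrank_eq_four]
  norm_num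

instance connected_S1 : ConnectedSpace S1 := by
  rw [← isConnected_iff_connectedSpace]
  refine isConnected_sphere ?_ 0 zero_le_one
  rw [← finrank_eq_rank, Complex.finrank_real_complex]
  norm_num

end Pool.Agent.V11202.GM
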