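import Pool.Agent.H839R2.Geo.Sph

set_option autoImplicit false

open scoped Manifold ContDiff Topology RealInnerProductSpace
open Module Metric

namespace Pool.Agent.V11202.GM

open Pool.Agent.H839R2.Geo

theorem hfd_smul {X W : Type*} [NormedAddCommGroup X] [NormedSpace ℝ X] [NormedAddCommGroup W]
    [NormedSpace ℝ W] {f : X → ℝ} {B : X → W} {f' : X →L[ℝ] ℝ} {B' : X →L[ℝ] W} {x : X}
    (hf : HasFDerivAt f f' x) (hB : HasFDerivAt B B' x) :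
    HasFDerivAt (fun x => f x • B x) (f x • B' + f'.smulRight (B x)) x := hf.smul hB

theorem hfd_smul_const {X W : Type*} [NormedAddCommGroup X] [NormedSpace ℝ X]
    [NormedAddCommGroup W] [NormedSpace ℝ W] {f : X → ℝ} {f' : X →L[ℝ] ℝ} {x : X}
    (hf : HasFDerivAt f f' x) (B : W) :
    HasFDerivAt (fun x => f x • B) (f'.smulRight B) x := hf.smul_const B

theorem smul_zero' {W : Type*} [NormedAddCommGroup W] [NormedSpace ℝ W] (r : ℝ) :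
    r • (0 : W) = 0 := smul_zero r

section conf

variable {E : Type*} [NormedAddCommGroup E] [InnerProductSpace ℝ E]

/-- the inner product as a continuous bilinear form -/
noncomputable def ip : E →L[ℝ] E →L[ℝ] ℝ := innerSL ℝ

theorem ip_apply (a b : E) : ip a b = ⟪a, b⟫ := rfl

/-- `B y a b = ⟪y, a⟫ b + ⟪y, b⟫ a - ⟪a, b⟫ y` -/
noncomputable def Bt : E →L[ℝ] E →L[ℝ] E →L[ℝ] E :=
  ((ContinuousLinearMap.smulRightL ℝ E (E →L[ℝ] E)).flip (ContinuousLinearMap.id ℝ E)).comp ip +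
    (ContinuousLinearMap.smulRightL ℝ E E).comp ip -
    ((ContinuousLinearMap.compL ℝ E (E →L[ℝ] ℝ) (E →L[ℝ] E)).flip ip).comp
      (ContinuousLinearMap.smulRightL ℝ E E).flip

theorem Bt_apply (y a b : E) : Bt y a b = ⟪y, a⟫ • b + ⟪y, b⟫ • a - ⟪a, b⟫ • y := by
  simp [Bt, ip_apply]

/-- Christoffel symbols of the round metric in stereographic coordinates -/
noncomputable def Gr (y : E) : E →L[ℝ] E →L[ℝ] E := (-(2 * (‖y‖ ^ 2 + 4)⁻¹)) • Bt y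

theorem Gr_zero : Gr (0 : E) = 0 := by
  rw [Gr, map_zero]
  exact smul_zero' (W := E →L[ℝ] E →L[ℝ] E) _

theorem hasFDerivAt_Gr : HasFDerivAt (Gr : E → E →L[ℝ] E →L[ℝ] E) ((-(1 / 2 : ℝ)) • Bt) 0 := by
  have h1 : HasFDerivAt (fun y : E => ‖y‖ ^ 2) (2 • (innerSL ℝ (0 : E))) 0 :=
    (hasStrictFDerivAt_norm_sq 0).hasFDerivAt
  have hne : ‖(0 : E)‖ ^ 2 + 4 ≠ 0 := by positivity
  have h3 : HasFDerivAt (fun w : E => -(2 * (‖w‖ ^ 2 + 4)⁻¹))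
      (-((2 : ℝ) • ((-(((‖(0 : E)‖ ^ 2 + 4) ^ 2)⁻¹)) • (2 • (innerSL ℝ (0 : E)))))) 0 := by
    have h4 := (hasDerivAt_inv hne).comp_hasFDerivAt (0 : E) (h1.add_const 4)
    exact (h4.const_mul 2).neg
  have h5 : HasFDerivAt (fun y : E => Bt y) (Bt : E →L[ℝ] E →L[ℝ] E →L[ℝ] E) 0 :=
    (Bt : E →L[ℝ] E →L[ℝ] E →L[ℝ] E).hasFDerivAt
  have h6 := hfd_smul (W := E →L[ℝ] E →L[ℝ] E) h3 h5
  have e : (-(1 / 2 : ℝ)) • (Bt : E →L[ℝ] E →L[ℝ] E →L[ℝ] E) =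
      (-(2 * (‖(0 : E)‖ ^ 2 + 4)⁻¹)) • Bt +
        (-((2 : ℝ) • ((-(((‖(0 : E)‖ ^ 2 + 4) ^ 2)⁻¹)) •
          (2 • (innerSL ℝ (0 : E)))))).smulRight (Bt (0 : E)) := by
    ext a b c
    simp
    norm_num
  rw [e]
  exact h6

theorem curvature_Gr (a b c : E) : curvature (Gr : E → E →L[ℝ] E →L[ℝ] E) 0 b c a =
    ⟪b, c⟫ • a - ⟪a, c⟫ • b := by
  show fderiv ℝ Gr 0 a b c - fderiv ℝ Gr 0 b a c + Gr (0 : E) a (Gr (0 : E) b c) -
    Gr (0 : E) b (Gr (0 : E) a c) = _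
  rw [hasFDerivAt_Gr.fderiv, Gr_zero]
  simp only [_root_.smul_apply, Bt_apply, _root_.zero_apply, add_zero, sub_zero,
    real_inner_comm b a]
  module

theorem trace_curvature_Gr [FiniteDimensional ℝ E] (b c : E) :
    LinearMap.trace ℝ E (curvature (Gr : E → E →L[ℝ] E →L[ℝ] E) 0 b c) =
      (finrank ℝ E - 1) * ⟪b, c⟫ := by
  rw [LinearMap.trace_eq_sum_inner _ (stdOrthonormalBasis ℝ E)]
  simp only [curvature_Gr, inner_sub_right, inner_smul_right, real_inner_self_eq_norm_sq,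
    OrthonormalBasis.norm_eq_one, Finset.sum_sub_distrib]
  have h1 : ∑ i, ⟪stdOrthonormalBasis ℝ E i, c⟫ * ⟪stdOrthonormalBasis ℝ E i, b⟫ = ⟪b, c⟫ := by
    rw [← (stdOrthonormalBasis ℝ E).sum_inner_mul_inner b c]
    refine Finset.sum_congr rfl fun i _ => ?_
    rw [real_inner_comm b, mul_comm]
  rw [h1]
  simp
  ring

/-- the conformally flat metric of the round sphere is compatible with `Gr` -/
theorem koszul_round {g : E → E →L[ℝ] E →L[ℝ] ℝ} {c : ℝ}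
    (hg : ∀ y a b, g y a b = c * (16 / (‖y‖ ^ 2 + 4) ^ 2 * ⟪a, b⟫)) (y a b d : E) :
    g y (Gr y a b) d = koszul g y a b d := by
  have hgeq : g = fun y => (16 * c * ((‖y‖ ^ 2 + 4)⁻¹) ^ 2) • (ip : E →L[ℝ] E →L[ℝ] ℝ) := by
    funext y
    ext a b
    rw [hg]
    simp only [_root_.smul_apply, ip_apply, smul_eq_mul]
    field_simp
  have hne : ‖y‖ ^ 2 + 4 ≠ 0 := by positivity
  have h1 : HasFDerivAt (fun y : E => ‖y‖ ^ 2) (2 • (innerSL ℝ y)) y :=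
    (hasStrictFDerivAt_norm_sq y).hasFDerivAt
  have h3 : HasFDerivAt (fun w : E => (‖w‖ ^ 2 + 4)⁻¹)
      ((-(((‖y‖ ^ 2 + 4) ^ 2)⁻¹)) • (2 • (innerSL ℝ y))) y :=
    (hasDerivAt_inv hne).comp_hasFDerivAt y (h1.add_const 4)
  have h4 := hfd_smul_const ((h3.pow 2).const_mul (16 * c)) (ip : E →L[ℝ] E →L[ℝ] ℝ)
  have hd : ∀ v a b : E, fderiv ℝ g y v a b =
      16 * c * (2 * (‖y‖ ^ 2 + 4)⁻¹ * (-(((‖y‖ ^ 2 + 4) ^ 2)⁻¹) * (2 * ⟪y, v⟫))) * ⟪a, b⟫ := by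
    intro v a b
    rw [hgeq]
    have h5 : fderiv ℝ (fun y : E => (16 * c * ((‖y‖ ^ 2 + 4)⁻¹) ^ 2) •
      (ip : E →L[ℝ] E →L[ℝ] ℝ)) y = _ := h4.fderiv
    rw [h5]
    simp [ip_apply]
  rw [hg]
  unfold koszul
  rw [hd, hd, hd, Gr]
  simp only [_root_.smul_apply, Bt_apply, inner_smul_left, inner_sub_left, inner_add_left,
    RCLike.conj_to_real]
  field_simp
  ring

end conf

end Pool.Agent.V11202.GM
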