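import Pool.Agent.V11202.GM.Defs
import Pool.Agent.V11202.GM.Round

set_option autoImplicit false

open scoped Manifold ContDiff Topology RealInnerProductSpace
open Module Metric

namespace Pool.Agent.V11202.GM

open Pool.Agent.H839R2.Geo

variable {V : Type*} [NormedAddCommGroup V] [InnerProductSpace ℝ V] {n : ℕ}
  [Fact (finrank ℝ V = n + 1)]

/-- the round metric of the unit sphere, multiplied by the constant `c` -/
noncomputable def roundMetric (c : ℝ) (hc : 0 < c) :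
    Bundle.ContMDiffRiemannianMetric (𝓡 n) ∞ (EuclideanSpace ℝ (Fin n))
      (fun x : sphere (0 : V) 1 => TangentSpace (𝓡 n) x) :=
  embMetric (fun x : sphere (0 : V) 1 => (x : V)) contMDiff_coe_sphere
    (fun p => mfderiv_coe_sphere_injective p) (fun _ => c • ip) (fun _ => contDiffAt_const)
    (fun _ v w => by
      simp only [_root_.smul_apply, ip_apply, real_inner_comm])
    (fun _ v hv => by
      simp only [_root_.smul_apply, ip_apply, smul_eq_mul, real_inner_self_eq_norm_sq]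
      have := norm_pos_iff.2 hv
      positivity)

/-- differential of the inclusion of the sphere -/
noncomputable def dco (x : sphere (0 : V) 1) : EuclideanSpace ℝ (Fin n) →L[ℝ] V :=
  mfderiv (𝓡 n) 𝓘(ℝ, V) (fun x : sphere (0 : V) 1 => (x : V)) x

theorem roundMetric_apply (c : ℝ) (hc : 0 < c) (x : sphere (0 : V) 1)
    (v w : TangentSpace (𝓡 n) x) : (roundMetric c hc).inner x v w =
      c * ⟪dco (n := n) x v, dco (n := n) x w⟫ := rfl

theorem dco_injective (x : sphere (0 : V) 1) : Function.Injective (dco (n := n) x) :=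
  injective_mvfderiv_subtypeVal_sphere x

theorem mfderiv_coe_comp {EN : Type*} [NormedAddCommGroup EN] [NormedSpace ℝ EN]
    {HN : Type*} [TopologicalSpace HN] {IN : ModelWithCorners ℝ EN HN} {N : Type*}
    [TopologicalSpace N] [ChartedSpace HN N] {f : N → sphere (0 : V) 1} {p : N}
    (hf : MDifferentiableAt IN (𝓡 n) f p) (v : EN) :
    (mfderiv IN 𝓘(ℝ, V) (fun q => (f q : V)) p : EN →L[ℝ] V) v =
      dco (n := n) (f p) ((mfderiv IN (𝓡 n) f p : EN →L[ℝ] EuclideanSpace ℝ (Fin n)) v) := by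
  have h1 : MDifferentiableAt (𝓡 n) 𝓘(ℝ, V) (fun x : sphere (0 : V) 1 => (x : V)) (f p) :=
    (contMDiff_coe_sphere (m := ∞)).mdifferentiableAt (by simp)
  have h2 := mfderiv_comp p h1 hf
  exact congrArg (fun L : EN →L[ℝ] V => L v) h2

theorem coord_round (c : ℝ) (hc : 0 < c) (x : sphere (0 : V) 1)
    (y a b : EuclideanSpace ℝ (Fin n)) :
    coordMetric (𝓡 n) (roundMetric c hc) x y a b = c * (16 / (‖y‖ ^ 2 + 4) ^ 2 * ⟪a, b⟫) := by
  obtain ⟨h1, -, J, h3, h4⟩ := chart_sphere (V := V) (n := n) x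
  have h5 : coordMetric (𝓡 n) (roundMetric (V := V) (n := n) c hc) x y =
      pull (fun _ => c • ip) ((fun x : sphere (0 : V) 1 => (x : V)) ∘ (extChartAt (𝓡 n) x).symm)
        y :=
    coordMetric_embMetric (fun x : sphere (0 : V) 1 => (x : V)) contMDiff_coe_sphere
      (fun p => mfderiv_coe_sphere_injective p) (fun _ => c • ip) (fun _ => contDiffAt_const)
      _ _ x (by rw [h1]; exact Set.mem_univ y)
  have h6 : ((fun x : sphere (0 : V) 1 => (x : V)) ∘ (extChartAt (𝓡 n) x).symm) =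
      sph (x : V) J := funext fun y => h4 y
  rw [h5, h6, pull_apply]
  simp only [_root_.smul_apply, ip_apply, smul_eq_mul]
  rw [sph_conformal (x : V) (by simp) J h3]

theorem curvEnd_apply {E : Type*} [NormedAddCommGroup E] [NormedSpace ℝ E]
    (Γ : E → E →L[ℝ] E →L[ℝ] E) (y a b c : E) : curvEnd Γ y b c a = curvature Γ y b c a := rfl

theorem curvEnd_eq {E : Type*} [NormedAddCommGroup E] [NormedSpace ℝ E]
    (Γ : E → E →L[ℝ] E →L[ℝ] E) (y b c : E) :
    ((curvEnd Γ y b c : E →L[ℝ] E) : E →ₗ[ℝ] E) = curvature Γ y b c := rfl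

theorem leviCivita_round (c : ℝ) (hc : 0 < c) (x : sphere (0 : V) 1) :
    IsLeviCivita (coordMetric (𝓡 n) (roundMetric c hc) x) Gr (extChartAt (𝓡 n) x x) := by
  obtain ⟨-, h2, -⟩ := chart_sphere (V := V) (n := n) x
  rw [h2]
  exact ⟨hasFDerivAt_Gr.differentiableAt, Filter.Eventually.of_forall fun y a b d =>
    koszul_round (coord_round c hc x) y a b d⟩

theorem posRicci_round (hn : 2 ≤ n) (c : ℝ) (hc : 0 < c) :
    PosRicci (𝓡 n) (roundMetric (V := V) (n := n) c hc) := by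
  intro x
  refine ⟨Gr, leviCivita_round c hc x, fun b hb => ?_⟩
  obtain ⟨-, h2, -⟩ := chart_sphere (V := V) (n := n) x
  rw [h2, curvEnd_eq, trace_curvature_Gr, real_inner_self_eq_norm_sq, finrank_euclideanSpace_fin]
  have h3 : (2 : ℝ) ≤ n := by exact_mod_cast hn
  have h4 := norm_pos_iff.2 hb
  have h5 : (0 : ℝ) < n - 1 := by linarith
  positivity

theorem secGe_round (c : ℝ) (hc : 0 < c) {κ : ℝ} (hκ : κ ≤ 0) :
    SecGe (𝓡 n) (roundMetric (V := V) (n := n) c hc) κ := by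
  intro x
  refine ⟨Gr, leviCivita_round c hc x, fun a b => ?_⟩
  obtain ⟨-, h2, -⟩ := chart_sphere (V := V) (n := n) x
  rw [h2, coord_round, coord_round, coord_round, coord_round, curvEnd_apply, curvature_Gr]
  simp only [norm_zero, inner_sub_left, inner_smul_left, RCLike.conj_to_real]
  have h6 : ⟪a, b⟫ * ⟪a, b⟫ ≤ ⟪a, a⟫ * ⟪b, b⟫ := by
    have := real_inner_mul_inner_self_le a b
    linarith
  rw [real_inner_comm a b]
  have e : (16 : ℝ) / (0 ^ 2 + 4) ^ 2 = 1 := by norm_num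
  rw [e]
  have h7 : 0 ≤ ⟪a, a⟫ * ⟪b, b⟫ - ⟪a, b⟫ * ⟪a, b⟫ := by linarith
  have h8 : κ * (c ^ 2 * (⟪a, a⟫ * ⟪b, b⟫ - ⟪a, b⟫ * ⟪a, b⟫)) ≤ 0 :=
    mul_nonpos_of_nonpos_of_nonneg hκ (by positivity)
  have h9 : 0 ≤ c * (⟪a, a⟫ * ⟪b, b⟫ - ⟪a, b⟫ * ⟪a, b⟫) := by positivity
  nlinarith

/-- any two points of the sphere are joined by an arc of a great circle -/
theorem exists_arc (hn : 1 ≤ n) (x y : sphere (0 : V) 1) : ∃ u : V, ‖u‖ = 1 ∧ ⟪(x : V), u⟫ = 0 ∧
    ∃ θ : ℝ, 0 ≤ θ ∧ θ ≤ Real.pi ∧ (y : V) = Real.cos θ • (x : V) + Real.sin θ • u := by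
  have hx : ‖(x : V)‖ = 1 := by simp
  have hy : ‖(y : V)‖ = 1 := by simp
  set r : ℝ := ⟪(x : V), (y : V)⟫ with hr
  have hr1 : |r| ≤ 1 := by
    have := abs_real_inner_le_norm (x : V) (y : V)
    rwa [hx, hy, one_mul] at this
  have hcos : Real.cos (Real.arccos r) = r := Real.cos_arccos (abs_le.1 hr1).1 (abs_le.1 hr1).2
  have hsin : 0 ≤ Real.sin (Real.arccos r) :=
    Real.sin_nonneg_of_nonneg_of_le_pi (Real.arccos_nonneg r) (Real.arccos_le_pi r)
  set z : V := (y : V) - r • (x : V) with hz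
  have hzn : ‖z‖ ^ 2 = 1 - r ^ 2 := by
    rw [hz, norm_sub_sq_real, norm_smul, hx, hy, real_inner_smul_right, real_inner_comm, ← hr,
      Real.norm_eq_abs, mul_one, sq_abs]
    ring
  have hzx : ⟪(x : V), z⟫ = 0 := by
    rw [hz, inner_sub_right, real_inner_smul_right, real_inner_self_eq_norm_sq, hx, ← hr]
    ring
  have hzs : ‖z‖ = Real.sin (Real.arccos r) := by
    have h1 := Real.sin_sq_add_cos_sq (Real.arccos r)
    rw [hcos] at h1
    have h2 : ‖z‖ ^ 2 = Real.sin (Real.arccos r) ^ 2 := by rw [hzn]; linarith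
    exact (pow_left_inj₀ (norm_nonneg z) hsin two_ne_zero).1 h2
  by_cases h0 : z = 0
  · have hfin : FiniteDimensional ℝ V :=
      .of_fact_finrank_eq_succ n
    have hx0 : (x : V) ≠ 0 := by
      intro h
      rw [h, norm_zero] at hx
      norm_num at hx
    have hrank : finrank ℝ (ℝ ∙ (x : V))ᗮ = n :=
      Submodule.finrank_orthogonal_span_singleton hx0
    have : Nontrivial (ℝ ∙ (x : V))ᗮ := by
      apply Module.nontrivial_of_finrank_pos (R := ℝ)
      omega
    obtain ⟨w, hw⟩ := exists_ne (0 : (ℝ ∙ (x : V))ᗮ)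
    have hw0 : (w : V) ≠ 0 := fun h => hw (Subtype.ext h)
    have hwx : ⟪(x : V), (w : V)⟫ = 0 := by
      have := w.2
      rwa [Submodule.mem_orthogonal_singleton_iff_inner_right] at this
    refine ⟨‖(w : V)‖⁻¹ • (w : V), ?_, ?_, Real.arccos r, Real.arccos_nonneg r,
      Real.arccos_le_pi r, ?_⟩
    · rw [norm_smul, norm_inv, norm_norm, inv_mul_cancel₀ (norm_ne_zero_iff.2 hw0)]
    · rw [real_inner_smul_right, hwx, mul_zero]
    · rw [← hzs, h0, norm_zero, zero_smul, add_zero, hcos]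
      exact sub_eq_zero.1 h0
  · have hz0 : ‖z‖ ≠ 0 := norm_ne_zero_iff.2 h0
    refine ⟨‖z‖⁻¹ • z, ?_, ?_, Real.arccos r, Real.arccos_nonneg r, Real.arccos_le_pi r, ?_⟩
    · rw [norm_smul, norm_inv, norm_norm, inv_mul_cancel₀ hz0]
    · rw [real_inner_smul_right, hzx, mul_zero]
    · rw [← hzs, hcos, smul_smul, mul_inv_cancel₀ hz0, one_smul, hz]
      abel

theorem diamLe_round (hn : 1 ≤ n) (c : ℝ) (hc : 0 < c) (hc1 : c ≤ 1 / 16) :
    DiamLe (𝓡 n) (roundMetric (V := V) (n := n) c hc) 1 := by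
  intro x y δ hδ
  obtain ⟨u, hu, hxu, θ, hθ0, hθ1, hy⟩ := exists_arc hn x y
  have hx : ‖(x : V)‖ = 1 := by simp
  set β : ℝ → V := fun t => Real.cos (θ * t) • (x : V) + Real.sin (θ * t) • u with hβ
  have hnorm : ∀ t, ‖β t‖ = 1 := by
    intro t
    have h1 : ‖β t‖ ^ 2 = 1 := by
      rw [hβ, norm_add_sq_real, norm_smul, norm_smul, real_inner_smul_left,
        real_inner_smul_right, hxu, hx, hu, Real.norm_eq_abs, Real.norm_eq_abs, mul_one, mul_one,
        sq_abs, sq_abs]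
      have := Real.sin_sq_add_cos_sq (θ * t)
      linarith
    nlinarith [norm_nonneg (β t)]
  have hβd : ∀ t, HasDerivAt β ((-Real.sin (θ * t) * θ) • (x : V) + (Real.cos (θ * t) * θ) • u)
      t := by
    intro t
    have h1 : HasDerivAt (fun t => θ * t) θ t := by
      simpa using (hasDerivAt_id t).const_mul θ
    exact (h1.cos.smul_const (x : V)).add (h1.sin.smul_const u)
  have hβn : ∀ t, ‖deriv β t‖ = θ := by
    intro t
    rw [(hβd t).deriv]
    have h1 : ‖(-Real.sin (θ * t) * θ) • (x : V) + (Real.cos (θ * t) * θ) • u‖ ^ 2 = θ ^ 2 := by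
      rw [norm_add_sq_real, norm_smul, norm_smul, real_inner_smul_left,
        real_inner_smul_right, hxu, hx, hu, Real.norm_eq_abs, Real.norm_eq_abs, mul_one, mul_one,
        sq_abs, sq_abs]
      have := Real.sin_sq_add_cos_sq (θ * t)
      linear_combination θ ^ 2 * this
    exact (pow_left_inj₀ (norm_nonneg _) hθ0 two_ne_zero).1 h1
  have hβc : ContDiff ℝ 1 β := by
    have h1 : ContDiff ℝ 1 (fun t : ℝ => θ * t) := contDiff_const.mul contDiff_id
    exact (h1.cos.smul contDiff_const).add (h1.sin.smul contDiff_const)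
  let γ : ℝ → sphere (0 : V) 1 := fun t => ⟨β t, by simpa using hnorm t⟩
  have hγ : ContMDiff 𝓘(ℝ, ℝ) (𝓡 n) 1 γ :=
    ContMDiff.codRestrict_sphere (m := 1) hβc.contMDiff _
  refine ⟨γ, hγ, ?_, ?_, ?_⟩
  · apply Subtype.ext
    simp [γ, hβ]
  · apply Subtype.ext
    simp [γ, hβ, hy]
  · have hkey : ∀ t : ℝ, √((roundMetric c hc).inner (γ t) (mfderiv 𝓘(ℝ, ℝ) (𝓡 n) γ t 1)
        (mfderiv 𝓘(ℝ, ℝ) (𝓡 n) γ t 1)) = √c * θ := by
      intro t
      rw [roundMetric_apply]
      have h1 := mfderiv_coe_comp (n := n) (f := γ) (p := t)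
        (hγ.mdifferentiableAt one_ne_zero) (1 : ℝ)
      have h2 : (mfderiv 𝓘(ℝ, ℝ) 𝓘(ℝ, V) (fun q => (γ q : V)) t : ℝ →L[ℝ] V) (1 : ℝ) =
          deriv β t := by
        rw [mfderiv_eq_fderiv]
        exact fderiv_apply_one_eq_deriv (𝕜 := ℝ) (f := β) (x := t)
      rw [h2] at h1
      have h3 : dco (n := n) (γ t) (mfderiv 𝓘(ℝ, ℝ) (𝓡 n) γ t 1) = deriv β t := h1.symm
      rw [h3, real_inner_self_eq_norm_sq, hβn, Real.sqrt_mul hc.le, Real.sqrt_sq hθ0]
    unfold curveLen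
    simp only [hkey]
    rw [intervalIntegral.integral_const, sub_zero, one_smul]
    have h4 : √c ≤ 1 / 4 := by
      rw [Real.sqrt_le_left (by norm_num)]
      norm_num
      linarith
    have h5 := Real.pi_lt_four
    have h6 : √c * θ ≤ 1 / 4 * Real.pi := mul_le_mul h4 hθ1 hθ0 (by norm_num)
    linarith

end Pool.Agent.V11202.GM
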